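import Pool.Agent.H91.RT.Chart

/-!
# RT-10  Existence of the chart

PROOF. `A := P ⧸ I` (domain), `L := FractionRing A`, `ι : P →ₐ[ℂ] L` the natural map (kernel `I`:
`IsFractionRing.injective A L`, `Ideal.Quotient.eq_zero_iff_mem`), `ζ := ι (D.z 2)`, nonzero because
`D.z 2 ∉ I` (`D.inj (X 2)` : `aeval z (X 2) = z 2 ∈ I → X 2 = 0`, false).
`θ' : P →ₐ[ℂ] L := aeval (fun i => ι (X i) / ζ)`.
(1) for `f` homogeneous of degree `d`: `θ' f * ζ ^ d = ι f` (expand `f.as_sum`; or: `θ'` of a monomial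
`∏ (ι X_i / ζ)^(s i)`, `∑ s i = d`; `Finset.prod_pow_eq_pow_sum`, `div_pow`, `Finset.prod_div_distrib`).
(2) `θ' p = 0` for `p ∈ I`: `p = ∑ p_i`, `p_i ∈ I` (`hI`), `θ' p_i * ζ^i = ι p_i = 0`, `ζ ≠ 0`.
(3) `f` homogeneous, `θ' f = 0` ⟹ `ι f = 0` ⟹ `f ∈ I`.
`B := θ'.range` (a subalgebra of the field `L`: a domain), `θ := θ'.rangeRestrict`, surjective.
(4) `θ (z 2) = 1` (`θ' (z 2) * ζ = ι (z 2) = ζ`). `Q → B`: `κ := aeval ![θ (z 0), θ (z 1)] : Q →ₐ[ℂ] B`,
`algQ := κ.toRingHom.toAlgebra` (then `tower` : `IsScalarTower.of_algHom κ`-like / `IsScalarTower.of_algebraMap_eq`).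
(5) injectivity of `κ`. Let `g ≠ 0` in `Q`, `κ g = 0`, `N := g.totalDegree`. Let `G := ∑_{i ≤ N}
(rename (Fin.castSucc) (homogeneousComponent i g)) * X 2 ^ (N - i)` in `MvPolynomial (Fin 3) ℂ`:
homogeneous of degree `N`; `aeval ![X 0, X 1, 1] G = g`-like computation shows `G ≠ 0` (apply the
algebra hom `MvPolynomial (Fin 3) ℂ → Q`, `X 0, X 1, X 2 ↦ X 0, X 1, 1`: it sends `G` to
`∑ homogeneousComponent i g = g`). `aeval D.z G` is homogeneous of degree `N` (`IsHomogeneous.aeval`) and
`θ (aeval D.z G) = aeval (θ ∘ D.z) G = aeval ![θ z0, θ z1, 1] G = κ g = 0`, so by (3)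
`aeval D.z G ∈ I`, so `G = 0` by `D.inj`, contradiction.
(6) `B` finite over `Q`. Replace `D.k` by `k := D.k + 1` (`mm ^ (k) ≤ mm ^ D.k`). Let `M` be the
`Q`-submodule of `B` spanned by the `θ (monomial s 1)`, `s.degree < k` (finitely many `s`: a subset of
`{s | ∀ i, s i < k}`; or use the finite generating sets of `homogeneousSubmodule (Fin n) ℂ d`, `d < k`
from `homogeneousSubmodule_fg`). `θ p ∈ M` for `p` homogeneous of degree `d` by induction on `d`: clear
for `d < k` (`C c` acts as a scalar of `Q`); for `d = d' + 1 ≥ k`, `decomp hI D.hz _ _ hp` gives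
`p - ∑ z i * b i ∈ I`, so `θ p = ∑_{i<3} θ (z i) * θ (b i) = X 0 • θ (b 0) + X 1 • θ (b 1) + θ (b 2)`,
with `b i` homogeneous of degree `d'`. All `p` are sums of homogeneous ones and `θ` is surjective, so
`M = ⊤`.
-/

open MvPolynomial

namespace Pool.Agent.H91.RT

variable {n : ℕ} {I : Ideal (MvPolynomial (Fin n) ℂ)}

/-- Dehomogenisation of a homogeneous polynomial. -/
theorem dehom_mul {L : Type*} [Field L] [Algebra ℂ L] (ι : MvPolynomial (Fin n) ℂ →ₐ[ℂ] L) (ζ : L)
    (hζ : ζ ≠ 0) {f : MvPolynomial (Fin n) ℂ} {d : ℕ} (hf : f.IsHomogeneous d) :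
    aeval (fun i => ι (X i) / ζ) f * ζ ^ d = ι f := by
  have hι : ∀ p, ι p = aeval (fun i => ι (X i)) p := fun p =>
    congrArg (fun g => g p) (MvPolynomial.aeval_unique ι)
  rw [hι f]
  conv_lhs => rw [f.as_sum]
  conv_rhs => rw [f.as_sum]
  rw [map_sum, map_sum, Finset.sum_mul]
  refine Finset.sum_congr rfl fun s hs => ?_
  rw [aeval_monomial, aeval_monomial, mul_assoc]
  congr 1
  rw [show d = s.degree from hf.degree_eq_sum_deg_support hs, Finsupp.degree_apply,
    ← Finset.prod_pow_eq_pow_sum, Finsupp.prod, Finsupp.prod, ← Finset.prod_mul_distrib]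
  refine Finset.prod_congr rfl fun i _ => ?_
  rw [div_pow, div_mul_cancel₀ _ (pow_ne_zero _ hζ)]

/-- The finiteness argument for the chart. -/
theorem finite_chart {S : Type*} [CommRing S] [Algebra ℂ S] [Algebra Q S] [IsScalarTower ℂ Q S]
    (π : MvPolynomial (Fin n) ℂ →ₐ[ℂ] S) (hπ : Function.Surjective π) (k : ℕ)
    (hdec : ∀ (d : ℕ) (p : MvPolynomial (Fin n) ℂ), k ≤ d + 1 → p.IsHomogeneous (d + 1) →
      ∃ b : Fin 3 → MvPolynomial (Fin n) ℂ, (∀ i, (b i).IsHomogeneous d) ∧
        π p = (X 0 : Q) • π (b 0) + (X 1 : Q) • π (b 1) + π (b 2)) : Module.Finite Q S := by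
  classical
  choose s hs using fun d => homogeneousSubmodule_fg (σ := Fin n) (R := ℂ) d
  let T : Finset S := (Finset.range (k + 1)).biUnion fun d => (s d).image π
  refine ⟨⟨T, ?_⟩⟩
  rw [eq_top_iff]
  have key : ∀ (d : ℕ) (p : MvPolynomial (Fin n) ℂ), p.IsHomogeneous d →
      π p ∈ Submodule.span Q (T : Set S) := by
    intro d
    induction d using Nat.strong_induction_on with
    | _ d ih =>
      intro p hp
      by_cases hd : d < k + 1
      · have hp' : p ∈ Submodule.span ℂ (s d : Set (MvPolynomial (Fin n) ℂ)) := by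
          rw [hs d]
          exact (mem_homogeneousSubmodule d p).2 hp
        clear hp
        induction hp' using Submodule.span_induction with
        | mem x hx =>
          refine Submodule.subset_span ?_
          simp only [T, Finset.coe_biUnion, Set.mem_iUnion, Finset.coe_range, Set.mem_Iio,
            Finset.coe_image, Set.mem_image]
          exact ⟨d, hd, x, hx, rfl⟩
        | zero => rw [map_zero]; exact Submodule.zero_mem _
        | add x y hx hy h1 h2 =>
          rw [map_add]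
          exact Submodule.add_mem _ h1 h2
        | smul c x hx h1 =>
          have h2 : π (c • x) = (C c : Q) • π x := by
            rw [map_smul, ← MvPolynomial.algebraMap_eq, algebraMap_smul]
          rw [h2]
          exact Submodule.smul_mem _ _ h1
      · obtain ⟨d', rfl⟩ : ∃ d', d = d' + 1 := ⟨d - 1, by omega⟩
        obtain ⟨b, hb, hpb⟩ := hdec d' p (by omega) hp
        rw [hpb]
        exact Submodule.add_mem _ (Submodule.add_mem _
          (Submodule.smul_mem _ _ (ih d' (by omega) (b 0) (hb 0)))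
          (Submodule.smul_mem _ _ (ih d' (by omega) (b 1) (hb 1)))) (ih d' (by omega) (b 2) (hb 2))
  rintro x -
  obtain ⟨p, rfl⟩ := hπ x
  rw [← sum_homogeneousComponent p, map_sum]
  exact Submodule.sum_mem _ fun i _ => key i _ (homogeneousComponent_isHomogeneous i p)

/-- Homogenisation of a polynomial in two variables. -/
noncomputable def homG (g : Q) : MvPolynomial (Fin 3) ℂ :=
  ∑ i ∈ Finset.range (g.totalDegree + 1),
    rename Fin.castSucc (homogeneousComponent i g) * X 2 ^ (g.totalDegree - i)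

lemma homG_isHomogeneous (g : Q) : (homG g).IsHomogeneous g.totalDegree := by
  refine IsHomogeneous.sum _ _ _ fun i hi => ?_
  rw [Finset.mem_range] at hi
  have h1 : (rename (Fin.castSucc : Fin 2 → Fin 3) (homogeneousComponent i g)).IsHomogeneous i :=
    (homogeneousComponent_isHomogeneous i g).rename_isHomogeneous
  have h2 : ((X 2 : MvPolynomial (Fin 3) ℂ) ^ (g.totalDegree - i)).IsHomogeneous
      (g.totalDegree - i) := isHomogeneous_X_pow _ _
  have h3 := h1.mul h2
  rwa [show i + (g.totalDegree - i) = g.totalDegree by omega] at h3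

lemma aeval_homG {S : Type*} [CommRing S] [Algebra ℂ S] (g : Q) (v : Fin 3 → S) (hv : v 2 = 1) :
    aeval v (homG g) = aeval (fun i : Fin 2 => v i.castSucc) g := by
  rw [homG, map_sum]
  conv_rhs => rw [← sum_homogeneousComponent g, map_sum]
  refine Finset.sum_congr rfl fun i _ => ?_
  rw [map_mul, map_pow, aeval_X, hv, one_pow, mul_one, aeval_rename]
  rfl

/-- The chart from its dehomogenisation map. -/
theorem chart_of (hI : IsHomog I) (D : Noeth I) {B : Type} [CommRing B] [IsDomain B]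
    [Algebra ℂ B] (θ : MvPolynomial (Fin n) ℂ →ₐ[ℂ] B) (surj : Function.Surjective θ)
    (zero : ∀ p ∈ I, θ p = 0) (θ2 : θ (D.z 2) = 1)
    (ker : ∀ (f : MvPolynomial (Fin n) ℂ) (d : ℕ), f.IsHomogeneous d → θ f = 0 → f ∈ I) :
    Nonempty (Chart D) := by
  let κ : Q →ₐ[ℂ] B := aeval fun i : Fin 2 => θ (D.z i.castSucc)
  let algQ : Algebra Q B := κ.toRingHom.toAlgebra
  have tower : IsScalarTower ℂ Q B := IsScalarTower.of_algebraMap_eq fun c => (κ.commutes c).symm
  have hX : ∀ i : Fin 2, algebraMap Q B (X i) = θ (D.z i.castSucc) := fun i =>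
    aeval_X (fun i : Fin 2 => θ (D.z i.castSucc)) i
  have inj : Function.Injective (algebraMap Q B) := by
    rw [injective_iff_map_eq_zero]
    intro g hg
    have hg' : aeval (fun i : Fin 2 => θ (D.z i.castSucc)) g = 0 := hg
    have h1 : (aeval D.z (homG g)).IsHomogeneous (1 * g.totalDegree) :=
      (homG_isHomogeneous g).aeval D.z D.hz
    have h2 : θ (aeval D.z (homG g)) = 0 := by
      have h3 : θ (aeval D.z (homG g)) = aeval (fun i => θ (D.z i)) (homG g) := by
        rw [← MvPolynomial.comp_aeval_apply]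
      rw [h3, aeval_homG g _ θ2]
      exact hg'
    have h4 := D.inj _ (ker _ _ h1 h2)
    have h5 := aeval_homG (S := Q) g ![X 0, X 1, 1] rfl
    rw [h4, map_zero] at h5
    rw [h5]
    have h6 : (fun i : Fin 2 => (![X 0, X 1, 1] : Fin 3 → Q) i.castSucc) = X := by
      funext i
      fin_cases i <;> rfl
    rw [h6]
    exact (aeval_X_left_apply g).symm
  have fin : Module.Finite Q B := by
    refine finite_chart θ surj D.k ?_
    intro d p hd hp
    obtain ⟨b, hb, hpb⟩ := decomp hI D.hz D.hk hd hp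
    refine ⟨b, hb, ?_⟩
    have h1 := zero _ hpb
    rw [map_sub, sub_eq_zero, map_sum, Fin.sum_univ_three, map_mul, map_mul, map_mul, θ2,
      one_mul] at h1
    rw [h1, Algebra.smul_def, Algebra.smul_def, hX, hX]
    rfl
  exact ⟨{ B := B, inj := inj, θ := θ, surj := surj, zero := zero, θ0 := (hX 0).symm,
           θ1 := (hX 1).symm, θ2 := θ2, ker := ker }⟩

theorem exists_chart (hI : IsHomog I) (hprime : I.IsPrime) (D : Noeth I) : Nonempty (Chart D) := by
  have hdom : IsDomain (MvPolynomial (Fin n) ℂ ⧸ I) := Ideal.Quotient.isDomain I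
  let L := FractionRing (MvPolynomial (Fin n) ℂ ⧸ I)
  let ι : MvPolynomial (Fin n) ℂ →ₐ[ℂ] L :=
    (IsScalarTower.toAlgHom ℂ (MvPolynomial (Fin n) ℂ ⧸ I) L).comp (Ideal.Quotient.mkₐ ℂ I)
  have hι : ∀ p, ι p = 0 ↔ p ∈ I := by
    intro p
    change algebraMap (MvPolynomial (Fin n) ℂ ⧸ I) L (Ideal.Quotient.mk I p) = 0 ↔ _
    rw [← Ideal.Quotient.eq_zero_iff_mem]
    exact map_eq_zero_iff _ (IsFractionRing.injective _ L)
  have hζ : ι (D.z 2) ≠ 0 := by
    intro h
    have h1 := D.inj (X 2) (by rw [aeval_X]; exact (hι _).1 h)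
    exact MvPolynomial.X_ne_zero 2 h1
  let θ' : MvPolynomial (Fin n) ℂ →ₐ[ℂ] L := aeval fun i => ι (X i) / ι (D.z 2)
  have hθ : ∀ (f : MvPolynomial (Fin n) ℂ) (d : ℕ), f.IsHomogeneous d →
      θ' f * ι (D.z 2) ^ d = ι f := fun f d hf => dehom_mul ι _ hζ hf
  have hzero : ∀ p ∈ I, θ' p = 0 := by
    intro p hp
    rw [← sum_homogeneousComponent p, map_sum]
    refine Finset.sum_eq_zero fun i _ => ?_
    have h1 := hθ _ i (homogeneousComponent_isHomogeneous i p)
    rw [(hι _).2 (hI p hp i)] at h1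
    exact (mul_eq_zero.1 h1).resolve_right (pow_ne_zero _ hζ)
  refine chart_of hI D θ'.rangeRestrict (AlgHom.rangeRestrict_surjective θ') ?_ ?_ ?_
  · intro p hp
    exact Subtype.ext (hzero p hp)
  · refine Subtype.ext ?_
    have h1 := hθ _ 1 (D.hz 2)
    rw [pow_one] at h1
    exact mul_right_cancel₀ hζ (h1.trans (one_mul _).symm)
  · intro f d hf h
    have h1 : θ' f = 0 := congrArg Subtype.val h
    have h2 := hθ f d hf
    rw [h1, zero_mul] at h2
    exact (hι f).1 h2.symm

end Pool.Agent.H91.RT
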