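import Pool.Agent.H91.RT.Affine

/-!
# RT-8  General grids avoid a curve

PROOF. In `R := MvPolynomial (Fin m ⊕ Fin m) ℂ` let
`G := (∏ i, ∏ j, if i = j then 1 else X (inl i) - X (inl j)) *
      (∏ i, ∏ j, if i = j then 1 else X (inr i) - X (inr j)) *
      ∏ i, ∏ j, rename (fun k : Fin 2 => ![Sum.inl i, Sum.inr j] k) δ`.
All factors are nonzero (`X a - X b ≠ 0` for `a ≠ b`: `MvPolynomial.X_injective`; `rename` along an
injective map is injective: `MvPolynomial.rename_injective`), so `G ≠ 0`, so there is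
`x : Fin m ⊕ Fin m → ℂ` with `eval x G ≠ 0` (`MvPolynomial.funext`). `c i := x (inl i)`,
`d j := x (inr j)`; `eval_rename` gives `eval x (rename _ δ) = eval ![c i, d j] δ = evp (c i) (d j) δ`.
-/

open MvPolynomial

namespace Pool.Agent.H91.RT

theorem exists_grid {δ : Q} (hδ : δ ≠ 0) (m : ℕ) :
    ∃ c d : Fin m → ℂ, Function.Injective c ∧ Function.Injective d ∧
      ∀ i j, evp (c i) (d j) δ ≠ 0 := by
  classical
  let R := MvPolynomial (Fin m ⊕ Fin m) ℂ
  let ι : Fin m → Fin m → Fin 2 → Fin m ⊕ Fin m := fun i j => ![Sum.inl i, Sum.inr j]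
  have hι : ∀ i j, Function.Injective (ι i j) := by
    intro i j a b h
    fin_cases a <;> fin_cases b <;> simp_all [ι]
  let G1 : R := ∏ i : Fin m, ∏ j : Fin m,
    if i = j then 1 else X (Sum.inl i) - X (Sum.inl j)
  let G2 : R := ∏ i : Fin m, ∏ j : Fin m,
    if i = j then 1 else X (Sum.inr i) - X (Sum.inr j)
  let G3 : R := ∏ i : Fin m, ∏ j : Fin m, rename (ι i j) δ
  have hX : ∀ a b : Fin m ⊕ Fin m, a ≠ b → (X a - X b : R) ≠ 0 := by
    intro a b hab h
    exact hab (MvPolynomial.X_injective (sub_eq_zero.mp h))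
  have h1 : G1 ≠ 0 := by
    refine Finset.prod_ne_zero_iff.mpr fun i _ => Finset.prod_ne_zero_iff.mpr fun j _ => ?_
    split_ifs with h
    · exact one_ne_zero
    · exact hX _ _ fun h' => h (Sum.inl.inj h')
  have h2 : G2 ≠ 0 := by
    refine Finset.prod_ne_zero_iff.mpr fun i _ => Finset.prod_ne_zero_iff.mpr fun j _ => ?_
    split_ifs with h
    · exact one_ne_zero
    · exact hX _ _ fun h' => h (Sum.inr.inj h')
  have h3 : G3 ≠ 0 := by
    refine Finset.prod_ne_zero_iff.mpr fun i _ => Finset.prod_ne_zero_iff.mpr fun j _ => ?_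
    intro h
    exact hδ (MvPolynomial.rename_injective _ (hι i j) (h.trans (map_zero _).symm))
  have hG : G1 * G2 * G3 ≠ 0 := mul_ne_zero (mul_ne_zero h1 h2) h3
  obtain ⟨x, hx⟩ : ∃ x : Fin m ⊕ Fin m → ℂ, eval x (G1 * G2 * G3) ≠ 0 := by
    by_contra hcon
    push Not at hcon
    exact hG (MvPolynomial.funext fun x => by rw [hcon x, map_zero])
  rw [map_mul, map_mul] at hx
  have hx1 : eval x G1 ≠ 0 := left_ne_zero_of_mul (left_ne_zero_of_mul hx)
  have hx2 : eval x G2 ≠ 0 := right_ne_zero_of_mul (left_ne_zero_of_mul hx)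
  have hx3 : eval x G3 ≠ 0 := right_ne_zero_of_mul hx
  rw [map_prod, Finset.prod_ne_zero_iff] at hx1 hx2 hx3
  refine ⟨fun i => x (Sum.inl i), fun j => x (Sum.inr j), ?_, ?_, ?_⟩
  · intro i j hij
    by_contra hne
    have h4 := hx1 i (Finset.mem_univ i)
    rw [map_prod, Finset.prod_ne_zero_iff] at h4
    have h5 := h4 j (Finset.mem_univ j)
    rw [if_neg hne] at h5
    apply h5
    simp only [map_sub, eval_X]
    exact sub_eq_zero.mpr hij
  · intro i j hij
    by_contra hne
    have h4 := hx2 i (Finset.mem_univ i)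
    rw [map_prod, Finset.prod_ne_zero_iff] at h4
    have h5 := h4 j (Finset.mem_univ j)
    rw [if_neg hne] at h5
    apply h5
    simp only [map_sub, eval_X]
    exact sub_eq_zero.mpr hij
  · intro i j
    have h4 := hx3 i (Finset.mem_univ i)
    rw [map_prod, Finset.prod_ne_zero_iff] at h4
    have h5 := h4 j (Finset.mem_univ j)
    rw [eval_rename] at h5
    have h6 : x ∘ ι i j = ![x (Sum.inl i), x (Sum.inr j)] := by
      funext a
      fin_cases a <;> rfl
    rw [h6] at h5
    exact h5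

end Pool.Agent.H91.RT
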