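import Pool.Agent.H91.RT.Chart

/-!
# RT-11  Clearing denominators

PROOF of `clear2`. `θ f = θ u * θ a + θ v * θ b` for some `a, b ∈ P` (`Ideal.mem_span_pair`, `E.surj`).
Let `N := max (a.totalDegree) (max b.totalDegree d)` and homogenise with `z := D.z 2`:
`hom p := ∑_{i ≤ N} z ^ (N - i) * homogeneousComponent i p`, homogeneous of degree `N`, and
`θ (hom p) = θ p` for `p = a, b` (`θ z = 1`, `sum_homogeneousComponent` : total degree `≤ N`). Then
`w := z ^ (m + N - d) * f - u * hom a - v * hom b` is homogeneous of degree `m + N` and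
`θ w = θ f - θ u θ a - θ v θ b = 0`, so `w ∈ I` (`E.ker`), so
`z ^ (m + N - d) * f = w + u * hom a + v * hom b ∈ I ⊔ span {u, v}`.

`clear1` is `clear2` with `v = u` (`Set.pair_eq_singleton`).
-/

open MvPolynomial

namespace Pool.Agent.H91.RT

variable {n : ℕ} {I : Ideal (MvPolynomial (Fin n) ℂ)} {D : Noeth I} (E : Chart D) {m d : ℕ}
  {u v f : MvPolynomial (Fin n) ℂ}

include E in
lemma homogenise (p : MvPolynomial (Fin n) ℂ) (N : ℕ) (hp : p.totalDegree ≤ N) :
    ∃ q : MvPolynomial (Fin n) ℂ, q.IsHomogeneous N ∧ E.θ q = E.θ p := by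
  refine ⟨∑ i ∈ Finset.range (N + 1), D.z 2 ^ (N - i) * homogeneousComponent i p, ?_, ?_⟩
  · refine IsHomogeneous.sum _ _ _ fun i hi => ?_
    have h1 := ((D.hz 2).pow (N - i)).mul (homogeneousComponent_isHomogeneous i p)
    rwa [one_mul, Nat.sub_add_cancel (Nat.lt_succ_iff.1 (Finset.mem_range.1 hi))] at h1
  · have h2 : ∑ i ∈ Finset.range (N + 1), homogeneousComponent i p = p := by
      conv_rhs => rw [← sum_homogeneousComponent p]
      symm
      refine Finset.sum_subset ?_ ?_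
      · intro i hi
        rw [Finset.mem_range] at hi ⊢
        omega
      · intro i _ hi
        refine homogeneousComponent_eq_zero _ _ ?_
        rw [Finset.mem_range] at hi
        omega
    conv_rhs => rw [← h2]
    rw [map_sum, map_sum]
    refine Finset.sum_congr rfl fun i _ => ?_
    rw [map_mul, map_pow, E.θ2, one_pow, one_mul]

theorem clear2 (hu : u.IsHomogeneous m) (hv : v.IsHomogeneous m) (hf : f.IsHomogeneous d)
    (h : E.θ f ∈ Ideal.span {E.θ u, E.θ v}) : ∃ e : ℕ, D.z 2 ^ e * f ∈ I ⊔ Ideal.span {u, v} := by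
  obtain ⟨a', b', hab'⟩ := Ideal.mem_span_pair.1 h
  obtain ⟨a, rfl⟩ := E.surj a'
  obtain ⟨b, rfl⟩ := E.surj b'
  have hz : (D.z 2).IsHomogeneous 1 := D.hz 2
  set N := max a.totalDegree (max b.totalDegree d) with hN
  have haN : a.totalDegree ≤ N := le_max_left _ _
  have hbN : b.totalDegree ≤ N := (le_max_left _ _).trans (le_max_right _ _)
  have hdN : d ≤ N := (le_max_right _ _).trans (le_max_right _ _)
  obtain ⟨a1, ha1, ha2⟩ := homogenise E a N haN
  obtain ⟨b1, hb1, hb2⟩ := homogenise E b N hbN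
  refine ⟨m + N - d, ?_⟩
  have hw : (D.z 2 ^ (m + N - d) * f - u * a1 - v * b1).IsHomogeneous (m + N) := by
    have h1 : (D.z 2 ^ (m + N - d) * f).IsHomogeneous (m + N) := by
      have := (hz.pow (m + N - d)).mul hf
      rwa [one_mul, Nat.sub_add_cancel (hdN.trans (Nat.le_add_left _ _))] at this
    exact (h1.sub (hu.mul ha1)).sub (hv.mul hb1)
  have hw0 : E.θ (D.z 2 ^ (m + N - d) * f - u * a1 - v * b1) = 0 := by
    rw [map_sub, map_sub, map_mul, map_mul, map_mul, map_pow, E.θ2, one_pow, one_mul, ha2, hb2,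
      ← hab']
    ring
  have hwI := E.ker _ _ hw hw0
  have : D.z 2 ^ (m + N - d) * f = (D.z 2 ^ (m + N - d) * f - u * a1 - v * b1) +
      (a1 * u + b1 * v) := by ring
  rw [this]
  exact Submodule.add_mem_sup hwI (Ideal.mem_span_pair.2 ⟨a1, b1, rfl⟩)

theorem clear1 (hu : u.IsHomogeneous m) (hf : f.IsHomogeneous d)
    (h : E.θ f ∈ Ideal.span {E.θ u}) : ∃ e : ℕ, D.z 2 ^ e * f ∈ I ⊔ Ideal.span {u} := by
  have := clear2 E hu hu hf (by simpa using h)
  simpa using this

end Pool.Agent.H91.RT
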