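import Pool.Agent.H91.RT.Affine

/-!
# RT-9  Finitely many points over a grid

PROOF. Let `S : Finset B` generate `B` as a `Q`-module (`Module.Finite.fg_top`). An algebra hom `φ` is
determined by `(φ (X 0), φ (X 1), (φ β)_{β ∈ S})` (with `X i` short for `algebraMap Q B (X i)`):
`φ` restricted to `Q` is `eval ![φ (X 0), φ (X 1)]` (`MvPolynomial.algHom_ext`), and `φ (∑ q_β β)
= ∑ φ(q_β) φ(β)`. `φ (uu c) = ∏ (φ (X 0) - c i) = 0` says `φ (X 0) = c i` for some `i`, and
`φ (X 1) = d j` for some `j`. For `β ∈ S` let `G_β ∈ Q[T]` be monic with `aeval β G_β = 0`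
(integrality: `Algebra.IsIntegral.of_finite`, `IsIntegral`): `φ β` is a root of the nonzero polynomial
`G_β.map (evp (c i) (d j))`. So the set injects into the finite set
`(range c) × (range d) × ∏_{β ∈ S} ⋃_{i,j} roots` (`Set.Finite.of_injOn` / `Set.Finite.of_finite_image`
+ `Set.Finite.pi`).
(Other proof: algebra homs `B ⧸ (u,v) → ℂ` are linearly independent
(`linearIndependent_monoidHom`/`linearIndependent_algHom_toLinearMap`) in the dual of the finite dimensional space `B ⧸ (u, v)`.)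
-/

open MvPolynomial

namespace Pool.Agent.H91.RT

theorem finite_points {B : Type} [CommRing B] [Algebra ℂ B] [Algebra Q B] [IsScalarTower ℂ Q B]
    [Module.Finite Q B] {m : ℕ} (c d : Fin m → ℂ) :
    {φ : B →ₐ[ℂ] ℂ | φ (algebraMap Q B (uu c)) = 0 ∧ φ (algebraMap Q B (vv d)) = 0}.Finite := by
  classical
  obtain ⟨S, hS⟩ := (Module.Finite.fg_top : (⊤ : Submodule Q B).FG)
  have hint : ∀ β : B, ∃ G : Polynomial Q, G.Monic ∧
      Polynomial.eval₂ (algebraMap Q B) β G = 0 := fun β =>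
    (Algebra.IsIntegral.isIntegral β : IsIntegral Q β)
  choose G hGm hG using hint
  have hcomp : ∀ φ : B →ₐ[ℂ] ℂ, (φ : B →+* ℂ).comp (algebraMap Q B) =
      evp (φ (algebraMap Q B (X 0))) (φ (algebraMap Q B (X 1))) := by
    intro φ
    refine MvPolynomial.ringHom_ext (fun r => ?_) (fun i => ?_)
    · have h1 : algebraMap Q B (C r) = algebraMap ℂ B r :=
        (IsScalarTower.algebraMap_apply ℂ Q B r).symm
      rw [RingHom.comp_apply, h1]
      simp [evp]
    · fin_cases i <;> simp [evp]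
  have happ : ∀ (φ : B →ₐ[ℂ] ℂ) (q : Q), φ (algebraMap Q B q) =
      evp (φ (algebraMap Q B (X 0))) (φ (algebraMap Q B (X 1))) q := fun φ q =>
    congrArg (fun f : Q →+* ℂ => f q) (hcomp φ)
  let Ψ : (B →ₐ[ℂ] ℂ) → ℂ × ℂ × (S → ℂ) := fun φ =>
    (φ (algebraMap Q B (X 0)), φ (algebraMap Q B (X 1)), fun β => φ β.1)
  have hΨ : Function.Injective Ψ := by
    intro φ φ' h
    have h0 : φ (algebraMap Q B (X 0)) = φ' (algebraMap Q B (X 0)) := congrArg (fun x => x.1) h
    have h1 : φ (algebraMap Q B (X 1)) = φ' (algebraMap Q B (X 1)) := congrArg (fun x => x.2.1) h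
    have h2 : ∀ β ∈ S, φ β = φ' β := fun β hβ => congrFun (congrArg (fun x => x.2.2) h) ⟨β, hβ⟩
    have hq : ∀ q : Q, φ (algebraMap Q B q) = φ' (algebraMap Q B q) := fun q => by
      rw [happ φ, happ φ', h0, h1]
    refine AlgHom.ext fun b => ?_
    have hb : b ∈ Submodule.span Q (S : Set B) := by rw [hS]; exact Submodule.mem_top
    induction hb using Submodule.span_induction with
    | mem x hx => exact h2 x hx
    | zero => rw [map_zero, map_zero]
    | add x y _ _ hx hy => rw [map_add, map_add, hx, hy]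
    | smul q x _ hx => rw [Algebra.smul_def, map_mul, map_mul, hx, hq]
  refine Set.Finite.of_finite_image (f := Ψ) ?_ hΨ.injOn
  refine Set.Finite.subset ((Set.finite_range c).prod ((Set.finite_range d).prod
    (Set.Finite.pi (t := fun β : S => ⋃ i : Fin m, ⋃ j : Fin m,
      (((G β.1).map (evp (c i) (d j))).roots.toFinset : Set ℂ))
      (fun β => Set.finite_iUnion fun i => Set.finite_iUnion fun j =>
        Finset.finite_toSet _)))) ?_
  rintro _ ⟨φ, ⟨hu, hv⟩, rfl⟩
  have hu' := hu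
  have hv' := hv
  rw [happ, evp_uu, Finset.prod_eq_zero_iff] at hu'
  rw [happ, evp_vv, Finset.prod_eq_zero_iff] at hv'
  obtain ⟨i, _, hi⟩ := hu'
  obtain ⟨j, _, hj⟩ := hv'
  have hi' : φ (algebraMap Q B (X 0)) = c i := sub_eq_zero.mp hi
  have hj' : φ (algebraMap Q B (X 1)) = d j := sub_eq_zero.mp hj
  refine ⟨⟨i, hi'.symm⟩, ⟨j, hj'.symm⟩, fun β _ => ?_⟩
  rw [Set.mem_iUnion]
  refine ⟨i, ?_⟩
  rw [Set.mem_iUnion]
  refine ⟨j, ?_⟩
  rw [Finset.mem_coe, Multiset.mem_toFinset, Polynomial.mem_roots ((hGm β.1).map _).ne_zero,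
    Polynomial.IsRoot.def, Polynomial.eval_map]
  have h3 := Polynomial.hom_eval₂ (G β.1) (algebraMap Q B) (φ : B →+* ℂ) β.1
  rw [hG, map_zero, hcomp φ, hi', hj'] at h3
  exact h3.symm

end Pool.Agent.H91.RT
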