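import Pool.Agent.H91.RT.Affine

/-!
# RT-5  Extension of complex points along integral ring maps

PROOF. `P := RingHom.ker ev` is prime, contains `ker (algebraMap R B)`. Lying over
(`Ideal.exists_ideal_over_prime_of_isIntegral` / `Ideal.exists_ideal_over_prime_of_isIntegral_of_isPrime`
with the ideal `⊥` of `B`, `Ideal.comap_bot`-type side goal `ker ≤ P`): a prime `P'` of `B` with
`P'.comap (algebraMap R B) = P`. `R ⧸ P → B ⧸ P'` is injective and integral; `R ⧸ P → ℂ` is injective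
(`RingHom.kerLift`). `IsAlgClosed.lift (R := R ⧸ P) (S := B ⧸ P') (M := ℂ)` (both algebra structures by
`letI := RingHom.toAlgebra`; it wants `FaithfulSMul`/`NoZeroSMulDivisors`) gives `ψ : B ⧸ P' → ℂ`;
`φ := ψ.comp mk`. (Alternatively: `P` is maximal if `ev` is surjective etc.; not needed.)
-/

namespace Pool.Agent.H91.RT

theorem exists_extend {R B : Type} [CommRing R] [CommRing B] [Algebra R B] [Algebra.IsIntegral R B]
    (ev : R →+* ℂ) (hker : RingHom.ker (algebraMap R B) ≤ RingHom.ker ev) :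
    ∃ φ : B →+* ℂ, φ.comp (algebraMap R B) = ev := by
  have hP : (RingHom.ker ev).IsPrime := RingHom.ker_isPrime ev
  obtain ⟨Q, -, hQ, hQP⟩ := Ideal.exists_ideal_over_prime_of_isIntegral (RingHom.ker ev)
    (⊥ : Ideal B) (by rwa [← RingHom.ker_eq_comap_bot])
  have hlift : ∀ a ∈ Q.comap (algebraMap R B), ev a = 0 := fun a ha => by
    rw [hQP] at ha
    exact ha
  let f : R ⧸ Q.comap (algebraMap R B) →+* ℂ := Ideal.Quotient.lift _ ev hlift
  have hf : Function.Injective f := by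
    rw [injective_iff_map_eq_zero]
    intro a ha
    obtain ⟨a, rfl⟩ := Ideal.Quotient.mk_surjective a
    rw [Ideal.Quotient.lift_mk] at ha
    rw [Ideal.Quotient.eq_zero_iff_mem, hQP]
    exact ha
  have hD : IsDomain (R ⧸ Q.comap (algebraMap R B)) :=
    Ideal.Quotient.isDomain _
  letI : Algebra (R ⧸ Q.comap (algebraMap R B)) ℂ := f.toAlgebra
  have h1 : FaithfulSMul (R ⧸ Q.comap (algebraMap R B)) ℂ :=
    (faithfulSMul_iff_algebraMap_injective _ _).2 hf
  have h2 : FaithfulSMul (R ⧸ Q.comap (algebraMap R B)) (B ⧸ Q) :=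
    (faithfulSMul_iff_algebraMap_injective _ _).2 Ideal.algebraMap_quotient_injective
  have h3 : Algebra.IsIntegral (R ⧸ Q.comap (algebraMap R B)) (B ⧸ Q) := inferInstance
  let ψ : (B ⧸ Q) →ₐ[R ⧸ Q.comap (algebraMap R B)] ℂ := IsAlgClosed.lift
  refine ⟨(ψ : (B ⧸ Q) →+* ℂ).comp (Ideal.Quotient.mk Q), ?_⟩
  ext r
  have h4 := ψ.commutes (Ideal.Quotient.mk _ r)
  exact h4

end Pool.Agent.H91.RT
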