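import Pool.Agent.H91.RT.GridBase
import Pool.Agent.H91.RT.Extend

/-!
# RT-6  Elements killed by all points over a good grid

PROOF of `exists_point`. Let `R = Polynomial Q`, acting on `B` through `aeval D.b₀`
(`letI : Algebra (Polynomial Q) B := (Polynomial.aeval D.b₀).toAlgebra` / `toRingHom.toAlgebra`); `B`
is integral over `R` because it is integral (finite) over `Q` and `Q → R → B` is a tower
(`Algebra.IsIntegral.tower_top`, or directly: an integral equation over `Q` maps to one over `R`).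
`ev : R → ℂ := Polynomial.eval₂RingHom (evp a b) τ`. `ker (aeval b₀) ≤ ker ev`: if `aeval b₀ h = 0`
then `g ∣ h` (`D.dvd`) and `ev g = g_p(τ) = 0`. `exists_extend` gives `φ : B →+* ℂ` with
`φ (aeval b₀ h) = ev h`. In particular `φ (algebraMap Q B q) = evp a b q`; for `c : ℂ`,
`φ (algebraMap ℂ B c) = φ (algebraMap Q B (C c)) = c` (scalar tower), so `φ` is a `ℂ`-algebra hom.

PROOF of `grid_a`. Take `h` with `δ₁ b = aeval b₀ h` and `r := h %ₘ g`: `aeval b₀ r = aeval b₀ h`
(`Polynomial.modByMonic_add_div`), `degree r < degree g` (`Polynomial.degree_modByMonic_lt`, `Q`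
nontrivial). Fix a grid point `p = (c i, d j)`, `g_p := g.map (evp ..)`, `r_p := r.map (evp ..)`:
`g_p` is monic of the same degree as `g`, `degree r_p ≤ degree r < degree g_p`. `g_p` is separable:
map `bez` by `evp`: `a'_p g_p + b'_p g_p' = C (Δ(p))` with `Δ(p) ≠ 0` (`Polynomial.derivative_map`), so
`g_p` has `natDegree g_p` distinct roots in `ℂ`
(`Polynomial.card_rootSet_eq_natDegree` / `nodup_roots` + `IsAlgClosed.splits`
/ `IsAlgClosed.card_roots..`). For a root `τ` of `g_p`: `exists_point` gives `φ` with `φ b₀ = τ`,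
`φ|Q = evp`; `φ (uu c) = evp (c i) (d j) (uu c) = 0` and `φ (vv d) = 0` (`evp_uu`, a factor is zero),
so `φ b = 0` by hypothesis and `r_p(τ) = φ (aeval b₀ r) = φ (δ₁ b) = 0`. So `r_p` has more roots than
its degree: `r_p = 0` (`Polynomial.eq_zero_of_degree_lt_of_eval_finset_eq_zero` or
`Polynomial.eq_zero_of_natDegree_lt_card_of_eval_eq_zero'`).
So all coefficients of `r` vanish on the grid and are in `(u, v)Q` (`mem_of_vanish`), so
`δ₁ b = aeval b₀ r = ∑ r_n b₀^n ∈ (u, v)B` (`Polynomial.aeval_eq_sum_range`;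
membership of `algebraMap q` in `Ideal.span {algebraMap u, algebraMap v}` from `q ∈ span {u, v}`:
`Ideal.mem_span_pair`, or `Ideal.mem_map_of_mem` & `Ideal.map_span`). Finally
`1 = α δ₁ + β u + γ v` in `Q` (`one_mem`; `δ₁(p) ≠ 0` as `(δ₁ Δ)(p) ≠ 0`), so
`b = α δ₁ b + β u b + γ v b ∈ (u, v)B`.
-/

open MvPolynomial

namespace Pool.Agent.H91.RT

variable {B : Type} [CommRing B] [IsDomain B] [Algebra ℂ B] [Algebra Q B] [IsScalarTower ℂ Q B]
  [Module.Finite Q B] {m : ℕ}

lemma exists_point (D : PrimData B) (a b τ : ℂ) (hτ : D.g.eval₂ (evp a b) τ = 0) :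
    ∃ φ : B →ₐ[ℂ] ℂ, φ D.b₀ = τ ∧ ∀ q : Q, φ (algebraMap Q B q) = evp a b q := by
  let _ : Algebra (Polynomial Q) B := (Polynomial.aeval (R := Q) D.b₀).toRingHom.toAlgebra
  have hal : ∀ h : Polynomial Q, algebraMap (Polynomial Q) B h = Polynomial.aeval D.b₀ h :=
    fun _ => rfl
  have : IsScalarTower Q (Polynomial Q) B := IsScalarTower.of_algebraMap_eq fun q => by
    rw [hal, Polynomial.algebraMap_apply, Algebra.algebraMap_self, RingHom.id_apply,
      Polynomial.aeval_C]
  have : Algebra.IsIntegral (Polynomial Q) B := Algebra.IsIntegral.tower_top (R := Q)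
  obtain ⟨φ, hφ⟩ := exists_extend (R := Polynomial Q) (B := B)
    (Polynomial.eval₂RingHom (evp a b) τ) (fun h hh => by
      rw [RingHom.mem_ker, hal] at hh
      obtain ⟨k, rfl⟩ := D.dvd h hh
      rw [RingHom.mem_ker, map_mul, Polynomial.coe_eval₂RingHom, hτ, zero_mul])
  have h1 : ∀ h : Polynomial Q, φ (Polynomial.aeval D.b₀ h) = h.eval₂ (evp a b) τ := fun h =>
    RingHom.congr_fun hφ h
  have h2 : ∀ q : Q, φ (algebraMap Q B q) = evp a b q := by
    intro q
    have := h1 (Polynomial.C q)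
    rwa [Polynomial.aeval_C, Polynomial.eval₂_C] at this
  refine ⟨{ φ with commutes' := fun c => ?_ }, ?_, h2⟩
  · change φ (algebraMap ℂ B c) = c
    rw [IsScalarTower.algebraMap_apply ℂ Q B, h2]
    simp [evp, MvPolynomial.algebraMap_eq]
  · change φ D.b₀ = τ
    have := h1 Polynomial.X
    rwa [Polynomial.aeval_X, Polynomial.eval₂_X] at this

/-- the remainder modulo `g` vanishes on the grid -/
lemma gridA_rem (D : PrimData B) (a b' : ℂ) (hδ : evp a b' D.Δ ≠ 0) (r : Polynomial Q)
    (hr : r.degree < D.g.degree)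
    (hb : ∀ φ : B →ₐ[ℂ] ℂ, (∀ q : Q, φ (algebraMap Q B q) = evp a b' q) →
      φ (Polynomial.aeval D.b₀ r) = 0) :
    r.map (evp a b') = 0 := by
  have hmon : (D.g.map (evp a b')).Monic := D.monic.map _
  have hdeg : (D.g.map (evp a b')).degree = D.g.degree := D.monic.degree_map _
  have hsep : (D.g.map (evp a b')).Separable := by
    obtain ⟨a₁, b₁, h⟩ := D.bez
    have h2 := congrArg (Polynomial.map (evp a b')) h
    rw [Polynomial.map_add, Polynomial.map_mul, Polynomial.map_mul, Polynomial.map_C,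
      ← Polynomial.derivative_map] at h2
    refine ⟨Polynomial.C (evp a b' D.Δ)⁻¹ * a₁.map (evp a b'),
      Polynomial.C (evp a b' D.Δ)⁻¹ * b₁.map (evp a b'), ?_⟩
    rw [mul_assoc, mul_assoc, ← mul_add, h2, ← Polynomial.C_mul, inv_mul_cancel₀ hδ,
      Polynomial.C_1]
  have hcard : (D.g.map (evp a b')).roots.toFinset.card = (D.g.map (evp a b')).natDegree := by
    rw [Multiset.toFinset_card_of_nodup (Polynomial.nodup_roots hsep)]
    exact (IsAlgClosed.splits _).natDegree_eq_card_roots.symm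
  refine Polynomial.eq_zero_of_degree_lt_of_eval_finset_eq_zero
    (D.g.map (evp a b')).roots.toFinset ?_ ?_
  · rw [hcard, ← Polynomial.degree_eq_natDegree hmon.ne_zero, hdeg]
    exact (Polynomial.degree_map_le).trans_lt hr
  · intro τ hτ
    rw [Multiset.mem_toFinset, Polynomial.mem_roots hmon.ne_zero, Polynomial.IsRoot.def,
      Polynomial.eval_map] at hτ
    obtain ⟨φ, h1, h2⟩ := exists_point D a b' τ hτ
    rw [Polynomial.eval_map, ← hb φ h2]
    have h3 : φ (Polynomial.eval₂ (algebraMap Q B) D.b₀ r) =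
        Polynomial.eval₂ ((φ : B →+* ℂ).comp (algebraMap Q B)) (φ D.b₀) r :=
      Polynomial.hom_eval₂ r (algebraMap Q B) (φ : B →+* ℂ) D.b₀
    have h4 : (φ : B →+* ℂ).comp (algebraMap Q B) = evp a b' := RingHom.ext h2
    rw [Polynomial.aeval_def, h3, h4, h1]

theorem grid_a (D : PrimData B) {c d : Fin m → ℂ} (hc : Function.Injective c)
    (hd : Function.Injective d) (hδ : ∀ i j, evp (c i) (d j) (D.δ₁ * D.Δ) ≠ 0) (b : B)
    (hb : ∀ φ : B →ₐ[ℂ] ℂ, φ (algebraMap Q B (uu c)) = 0 → φ (algebraMap Q B (vv d)) = 0 →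
      φ b = 0) :
    b ∈ Ideal.span {algebraMap Q B (uu c), algebraMap Q B (vv d)} := by
  obtain ⟨h, hh⟩ := D.cover b
  set r := h %ₘ D.g with hr
  have hr1 : Polynomial.aeval D.b₀ r = algebraMap Q B D.δ₁ * b := by
    rw [hh]
    conv_rhs => rw [← Polynomial.modByMonic_add_div h D.g, map_add, map_mul, D.root, zero_mul,
      add_zero]
  have hr2 : r.degree < D.g.degree := Polynomial.degree_modByMonic_lt _ D.monic
  have hr3 : ∀ i j, r.map (evp (c i) (d j)) = 0 := by
    intro i j
    have h1 := hδ i j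
    rw [map_mul] at h1
    refine gridA_rem D _ _ (right_ne_zero_of_mul h1) r hr2 fun φ hφ => ?_
    rw [hr1, map_mul, hb φ, mul_zero]
    · rw [hφ, evp_uu]
      exact Finset.prod_eq_zero (Finset.mem_univ i) (sub_self _)
    · rw [hφ, evp_vv]
      exact Finset.prod_eq_zero (Finset.mem_univ j) (sub_self _)
  have hr4 : ∀ n, r.coeff n ∈ Ideal.span {uu c, vv d} := by
    intro n
    refine mem_of_vanish hc hd _ fun i j => ?_
    have := congrArg (fun p => Polynomial.coeff p n) (hr3 i j)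
    simpa using this
  have hmem : ∀ q : Q, q ∈ Ideal.span {uu c, vv d} →
      algebraMap Q B q ∈ Ideal.span {algebraMap Q B (uu c), algebraMap Q B (vv d)} := by
    intro q hq
    have := Ideal.mem_map_of_mem (algebraMap Q B) hq
    rwa [Ideal.map_span, Set.image_pair] at this
  have hr5 : algebraMap Q B D.δ₁ * b ∈
      Ideal.span {algebraMap Q B (uu c), algebraMap Q B (vv d)} := by
    rw [← hr1, Polynomial.aeval_eq_sum_range]
    refine Ideal.sum_mem _ fun n _ => ?_
    rw [Algebra.smul_def]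
    exact Ideal.mul_mem_right _ _ (hmem _ (hr4 n))
  have h1 : (1 : Q) ∈ Ideal.span {D.δ₁, uu c, vv d} := one_mem hc hd D.δ₁ fun i j => by
    have h1 := hδ i j
    rw [map_mul] at h1
    exact left_ne_zero_of_mul h1
  rw [Ideal.mem_span_insert] at h1
  obtain ⟨α, z, hz, h1⟩ := h1
  have h2 : b = algebraMap Q B α * (algebraMap Q B D.δ₁ * b) + algebraMap Q B z * b := by
    rw [← mul_assoc, ← map_mul, ← add_mul, ← map_add, ← h1, map_one, one_mul]
  rw [h2]
  exact Ideal.add_mem _ (Ideal.mul_mem_left _ _ hr5) (Ideal.mul_mem_right _ _ (hmem z hz))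

end Pool.Agent.H91.RT
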