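import Pool.Agent.H91.RT.GridBase

/-!
# RT-7  `u, v` is a regular sequence on `B`

PROOF. Take `h, h'` with `δ₁ b = aeval b₀ h`, `δ₁ b' = aeval b₀ h'` (`D.cover`) and
`r := h %ₘ g`, `r' := h' %ₘ g`; `aeval b₀ r = δ₁ b`, `aeval b₀ r' = δ₁ b'`
(`Polynomial.modByMonic_add_div`, `D.root`), both of degree `< degree g`
(`Polynomial.degree_modByMonic_lt`). `w := C (vv d) * r - C (uu c) * r'` has
`aeval b₀ w = δ₁ (v b - u b') = 0`, so `g ∣ w` (`D.dvd`) and `degree w < degree g`
(`Polynomial.degree_C_mul_le..`), so `w = 0` (`Polynomial.eq_zero_of_monic_of_dvd_of_degree_lt`).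
Coefficients: `vv d * r_n = uu c * r'_n` for all `n`, so `uu c ∣ r_n` (`dvd_of_vv_mul`). So
`δ₁ b = ∑ r_n b₀^n ∈ uB` (`Polynomial.aeval_eq_sum_range`). Also `u b ∈ uB`, `v b = u b' ∈ uB`. With
`1 = α δ₁ + β u + γ v` (`one_mem`, `Ideal.mem_span_insert`..): `b = α δ₁ b + β u b + γ v b ∈ uB`.
-/

open MvPolynomial

namespace Pool.Agent.H91.RT

variable {B : Type} [CommRing B] [IsDomain B] [Algebra Q B] [Module.Finite Q B] {m : ℕ}

theorem gridB_red (D : PrimData B) (x : B) : ∃ r : Polynomial Q, r.degree < D.g.degree ∧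
    algebraMap Q B D.δ₁ * x = Polynomial.aeval D.b₀ r := by
  obtain ⟨h, hh⟩ := D.cover x
  refine ⟨h %ₘ D.g, Polynomial.degree_modByMonic_lt h D.monic, ?_⟩
  rw [hh]
  conv_lhs => rw [← Polynomial.modByMonic_add_div h D.g]
  rw [map_add, map_mul, D.root, zero_mul, add_zero]

theorem grid_b (D : PrimData B) {c d : Fin m → ℂ} (hc : Function.Injective c)
    (hd : Function.Injective d) (hδ : ∀ i j, evp (c i) (d j) (D.δ₁ * D.Δ) ≠ 0) (b b' : B)
    (h : algebraMap Q B (vv d) * b = algebraMap Q B (uu c) * b') :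
    b ∈ Ideal.span {algebraMap Q B (uu c)} := by
  obtain ⟨r, hr, hrb⟩ := gridB_red D b
  obtain ⟨r', hr', hrb'⟩ := gridB_red D b'
  set w : Polynomial Q := Polynomial.C (vv d) * r - Polynomial.C (uu c) * r' with hw
  have hw0 : Polynomial.aeval D.b₀ w = 0 := by
    rw [hw, map_sub, map_mul, map_mul, Polynomial.aeval_C, Polynomial.aeval_C, ← hrb, ← hrb']
    linear_combination (algebraMap Q B D.δ₁) * h
  have hdeg : w.degree < D.g.degree := by
    refine lt_of_le_of_lt (Polynomial.degree_sub_le _ _) (max_lt ?_ ?_)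
    · rw [Polynomial.degree_C_mul (vv_ne d)]
      exact hr
    · rw [Polynomial.degree_C_mul (uu_ne c)]
      exact hr'
  have hw00 : w = 0 := Polynomial.eq_zero_of_dvd_of_degree_lt (D.dvd w hw0) hdeg
  have hcoef : ∀ n, uu c ∣ r.coeff n := by
    intro n
    apply dvd_of_vv_mul c d
    have h1 := congrArg (fun p => Polynomial.coeff p n) hw00
    simp only [hw, Polynomial.coeff_sub, Polynomial.coeff_C_mul, Polynomial.coeff_zero] at h1
    exact ⟨r'.coeff n, sub_eq_zero.1 h1⟩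
  have h2 : algebraMap Q B D.δ₁ * b ∈ Ideal.span {algebraMap Q B (uu c)} := by
    rw [hrb, Polynomial.aeval_eq_sum_range]
    refine Ideal.sum_mem _ fun n _ => ?_
    obtain ⟨e, he⟩ := hcoef n
    rw [he, Algebra.smul_def, map_mul, mul_assoc]
    exact Ideal.mul_mem_right _ _ (Ideal.mem_span_singleton_self _)
  have hδ1 : ∀ i j, evp (c i) (d j) D.δ₁ ≠ 0 := fun i j h0 => hδ i j (by rw [map_mul, h0, zero_mul])
  have h3 := one_mem hc hd D.δ₁ hδ1
  obtain ⟨α, y, hy, h4⟩ := Ideal.mem_span_insert.1 h3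
  obtain ⟨β, γ, h5⟩ := Ideal.mem_span_pair.1 hy
  have h6 : b = algebraMap Q B α * (algebraMap Q B D.δ₁ * b) +
      (algebraMap Q B β * b + algebraMap Q B γ * b') * algebraMap Q B (uu c) := by
    have h7 : (1 : B) = algebraMap Q B α * algebraMap Q B D.δ₁ +
        (algebraMap Q B β * algebraMap Q B (uu c) + algebraMap Q B γ * algebraMap Q B (vv d)) := by
      rw [← map_mul, ← map_mul, ← map_mul, ← map_add, ← map_add, h5, ← h4, map_one]
    linear_combination b * h7 + algebraMap Q B γ * h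
  rw [h6]
  exact Ideal.add_mem _ (Ideal.mul_mem_left _ _ h2)
    (Ideal.mul_mem_left _ _ (Ideal.mem_span_singleton_self _))

end Pool.Agent.H91.RT
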