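import Pool.Agent.H91.RT.Basic

/-!
# RT-13  Homogeneous elements of large degree

PROOF. Let `S := {f | (∃ d, f.IsHomogeneous d) ∧ Pr f}`. `P` is noetherian, so `span S = span T` for a
finite `T ⊆ S` (`Submodule.fg_span_iff_fg_span_finset_subset` and `IsNoetherian.noetherian`, as in
`H24.Ku.exists_homog_generators`, Pool/Agent/H24/Ku/FGClosure.lean). For `f ∈ T` choose `d_f` with `f`
homogeneous of degree `d_f` and `e_f` with `z ^ e_f * f ∈ J`. `e := ∑_{f ∈ T} e_f`: `z ^ e * f ∈ J` for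
all `f ∈ T`. `hpow e` gives `k₁`. For `w ∈ mm ^ k₁` and `f ∈ T`: `w = w' + r z^e` with `w' ∈ J'`
(`Submodule.mem_sup`, `Ideal.mem_span_singleton'`), so `w * f ∈ J`. `n₀ := k₁ + ∑_{f ∈ T} d_f`.
Let `a` be homogeneous of degree `d ≥ n₀` with `Pr a`: `a ∈ S`, `a = ∑_{f ∈ T} c_f * f`
(`Submodule.mem_span_finset`); take the component of degree `d = (d - d_f) + d_f` (`component_mul`):
`a = ∑ (homogeneousComponent (d - d_f) c_f) * f`, and `homogeneousComponent (d - d_f) c_f ∈ mm ^ k₁`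
(`mem_mm_pow`), so `a ∈ J`.
-/

open MvPolynomial

namespace Pool.Agent.H91.RT

variable {n : ℕ}

theorem exists_large {J J' : Ideal (MvPolynomial (Fin n) ℂ)} (z : MvPolynomial (Fin n) ℂ)
    (Pr : MvPolynomial (Fin n) ℂ → Prop)
    (hz : ∀ (f : MvPolynomial (Fin n) ℂ) (d : ℕ), f.IsHomogeneous d → Pr f → ∃ e : ℕ, z ^ e * f ∈ J)
    (hJ : ∀ (f : MvPolynomial (Fin n) ℂ) (d : ℕ), f.IsHomogeneous d → Pr f → ∀ w ∈ J', w * f ∈ J)
    (hpow : ∀ e : ℕ, ∃ k₁ : ℕ, mm n ^ k₁ ≤ J' ⊔ Ideal.span {z ^ e}) :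
    ∃ n₀ : ℕ, ∀ d : ℕ, n₀ ≤ d → ∀ a : MvPolynomial (Fin n) ℂ, a.IsHomogeneous d → Pr a → a ∈ J := by
  classical
  let S : Set (MvPolynomial (Fin n) ℂ) := {f | (∃ d, f.IsHomogeneous d) ∧ Pr f}
  obtain ⟨T, hTS, hT⟩ := (Submodule.fg_span_iff_fg_span_finset_subset
    (R := MvPolynomial (Fin n) ℂ) S).1 (IsNoetherian.noetherian _)
  have hd : ∀ f ∈ T, ∃ d, f.IsHomogeneous d := fun f hf => (hTS hf).1
  choose! df hdf using hd
  have he : ∀ f ∈ T, ∃ e, z ^ e * f ∈ J := fun f hf => hz f (df f) (hdf f hf) (hTS hf).2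
  choose! ef hef using he
  obtain ⟨k₁, hk₁⟩ := hpow (∑ f ∈ T, ef f)
  refine ⟨k₁ + ∑ f ∈ T, df f, fun d hd a ha hPa => ?_⟩
  have haS : a ∈ Submodule.span (MvPolynomial (Fin n) ℂ) (T : Set (MvPolynomial (Fin n) ℂ)) := by
    rw [← hT]
    exact Submodule.subset_span ⟨⟨d, ha⟩, hPa⟩
  obtain ⟨c, -, hc⟩ := Submodule.mem_span_finset.1 haS
  have h1 : a = ∑ f ∈ T, f * homogeneousComponent (d - df f) (c f) := by
    conv_lhs => rw [← homogeneousComponent_eq_self ha, ← hc, map_sum]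
    refine Finset.sum_congr rfl fun f hf => ?_
    have h2 : df f ≤ d := by
      have := Finset.single_le_sum (f := df) (fun _ _ => Nat.zero_le _) hf
      omega
    have h3 := component_mul (d := d - df f) (hdf f hf) (c f)
    rw [Nat.sub_add_cancel h2] at h3
    rw [smul_eq_mul, mul_comm (c f), h3]
  rw [h1]
  refine Ideal.sum_mem _ fun f hf => ?_
  have h2 : k₁ ≤ d - df f := by
    have := Finset.single_le_sum (f := df) (fun _ _ => Nat.zero_le _) hf
    omega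
  obtain ⟨w', hw', s, hs, hws⟩ := Submodule.mem_sup.1
    (hk₁ (mem_mm_pow (homogeneousComponent_isHomogeneous (d - df f) (c f)) h2))
  obtain ⟨r, rfl⟩ := Ideal.mem_span_singleton'.1 hs
  rw [← hws, mul_add]
  refine Ideal.add_mem _ ?_ ?_
  · rw [mul_comm]
    exact hJ f (df f) (hdf f hf) (hTS hf).2 w' hw'
  · have h3 : ∑ f ∈ T, ef f = (∑ f ∈ T, ef f - ef f) + ef f := by
      have := Finset.single_le_sum (f := ef) (fun _ _ => Nat.zero_le _) hf
      omega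
    have h4 : f * (r * z ^ (∑ f ∈ T, ef f)) =
        (r * z ^ (∑ f ∈ T, ef f - ef f)) * (z ^ ef f * f) := by
      conv_lhs => rw [h3, pow_add]
      ring
    rw [h4]
    exact Ideal.mul_mem_left _ _ (hef f hf)

end Pool.Agent.H91.RT
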