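import Pool.Agent.H91.RT.Basic

/-!
# RT-12  Large powers of the irrelevant ideal

PROOF. Put `J := (I ⊔ span {U, V}) ⊔ span {z_2 ^ e}` and let `R` be its radical. `z_2 ∈ R` (as
`z_2 ^ e ∈ J`; `Ideal.mem_radical_iff`; for `e = 0` everything is trivial since `1 ∈ J`, but the same
argument works: `z_2 ^ e ∈ J`). `U c = ∏ (z_0 - C (c i) z_2) ∈ R`, and modulo `R` it is `z_0 ^ m`
(`Ideal.Quotient.mk R`, `map_prod`, `mk z_2 = 0`; `Finset.prod_const`), so `z_0 ^ m ∈ R`, so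
`z_0 ∈ R` (`Ideal.radical_isRadical`, `(radical_isRadical J) ⟨m, _⟩`); similarly `z_1 ∈ R` with `V d`.
So `I ⊔ span (range z) ≤ R` (`Fin.forall_fin_succ`/`fin_cases` on `Fin 3`), so `mm ^ k ≤ R`, so
`mm ≤ R` (each generator `X i` has `X i ^ k ∈ mm ^ k ≤ R`). `mm` is finitely generated, so
`mm ^ K ≤ J` for some `K` (`Ideal.exists_pow_le_of_le_radical_of_fg`).
-/

open MvPolynomial

namespace Pool.Agent.H91.RT

variable {n : ℕ} {I : Ideal (MvPolynomial (Fin n) ℂ)} (D : Noeth I) {m : ℕ}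

lemma mem_of_prod_lin {A : Type*} [CommRing A] {R : Ideal A} (hR : R.IsRadical) {a b : A}
    (hb : b ∈ R) (c : Fin m → A) (h : ∏ i, (a - c i * b) ∈ R) : a ∈ R := by
  have h1 : a ^ m ∈ R := by
    have h2 : (Ideal.Quotient.mk R) (∏ i, (a - c i * b)) = (Ideal.Quotient.mk R) (a ^ m) := by
      rw [map_prod, map_pow]
      have h3 : ∀ i : Fin m, (Ideal.Quotient.mk R) (a - c i * b) = (Ideal.Quotient.mk R) a := by
        intro i
        rw [Ideal.Quotient.eq, sub_sub_cancel_left]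
        exact R.neg_mem (R.mul_mem_left _ hb)
      rw [Finset.prod_congr rfl fun i _ => h3 i, Finset.prod_const, Finset.card_univ,
        Fintype.card_fin]
    rw [← Ideal.Quotient.eq_zero_iff_mem, ← h2, Ideal.Quotient.eq_zero_iff_mem]
    exact h
  exact hR ⟨m, h1⟩

theorem exists_pow_le (c d : Fin m → ℂ) (e : ℕ) :
    ∃ k₁ : ℕ, mm n ^ k₁ ≤ (I ⊔ Ideal.span {D.U c, D.V d}) ⊔ Ideal.span {D.z 2 ^ e} := by
  set J : Ideal (MvPolynomial (Fin n) ℂ) :=
    (I ⊔ Ideal.span {D.U c, D.V d}) ⊔ Ideal.span {D.z 2 ^ e} with hJ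
  have hR : J.radical.IsRadical := Ideal.radical_isRadical J
  have hJR : J ≤ J.radical := Ideal.le_radical
  have h2 : D.z 2 ∈ J.radical :=
    ⟨e, (le_sup_right : Ideal.span {D.z 2 ^ e} ≤ J) (Ideal.mem_span_singleton_self _)⟩
  have hUV : Ideal.span {D.U c, D.V d} ≤ J := le_trans le_sup_right le_sup_left
  have h0 : D.z 0 ∈ J.radical :=
    mem_of_prod_lin hR h2 (fun i => C (c i)) (hJR (hUV (Ideal.subset_span (Set.mem_insert _ _))))
  have h1 : D.z 1 ∈ J.radical :=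
    mem_of_prod_lin hR h2 (fun i => C (d i)) (hJR (hUV (Ideal.subset_span (Set.mem_insert_of_mem _ rfl))))
  have hz : I ⊔ Ideal.span (Set.range D.z) ≤ J.radical := by
    refine sup_le (le_trans (le_trans le_sup_left le_sup_left) hJR) ?_
    rw [Ideal.span_le]
    rintro _ ⟨i, rfl⟩
    fin_cases i
    · exact h0
    · exact h1
    · exact h2
  have hm : mm n ≤ J.radical := by
    unfold mm
    rw [Ideal.span_le]
    rintro _ ⟨i, rfl⟩
    exact hR ⟨D.k, hz (D.hk (Ideal.pow_mem_pow (X_mem_mm i) _))⟩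
  exact Ideal.exists_pow_le_of_le_radical_of_fg hm (IsNoetherian.noetherian _)

end Pool.Agent.H91.RT
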