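import Pool.Agent.H91.RT.Affine

/-!
# RT-3  Primitive element data

`B` a domain, finite over `Q = ℂ[s, t]` (a UFD, so integrally closed), `Q → B` injective.

PROOF. Let `K = FractionRing Q`, `L = FractionRing B`, `L` a `K`-algebra
(`FractionRing.liftAlgebra`, or `letI := (IsFractionRing.lift/map ..).toAlgebra` with scalar towers
`Q → K → L`, `Q → B → L`; Mathlib has `FractionRing.isScalarTower_liftAlgebra`,
`IsFractionRing.isFractionRing_of..`, `IsIntegralClosure.isFractionRing_of_finite_extension`,
`IsFractionRing.of_..`, `Module.Finite K L` from `Module.Finite Q B`: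
`Module.Finite.of_isLocalization`/`Module.Finite_of_isLocalization Q B K L Q⁰` with
`IsLocalization (Algebra.algebraMapSubmonoid B Q⁰) L` (`IsFractionRing` of an integral extension:
`Algebra.IsAlgebraic.. isLocalization_algebraMapSubmonoid_of_isIntegral` or
`IsIntegralClosure..`).  `L / K` is finite and separable (char 0), so there is a primitive element
`α` (`Field.exists_primitive_element`). `α = x / y` with `x, y ∈ B`, `y ≠ 0`;
`Algebra.IsAlgebraic.exists_smul_eq_mul Q x` gives `c : B`, `q ≠ 0` in `Q` with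
`q • x = y * c`, so `q α = c ∈ B`. Put `b₀ := c`; `K(b₀) = K(α) = L`
(`IntermediateField.adjoin`: `α = q⁻¹ b₀`).
 * `g := minpoly Q b₀`, monic (`minpoly.monic` since `b₀` is integral), `root := minpoly.aeval`,
   `dvd := minpoly.isIntegrallyClosed_dvd` (needs `IsIntegrallyClosed Q`, `IsDomain B`,
   `FaithfulSMul`/`NoZeroSMulDivisors Q B`).
 * `δ₁`, `cover`: `B = ∑ Q b_j` (finitely many `b_j`). In `L`: `b_j = P_j(b₀)` with `P_j ∈ K[T]`
   (`K⟮b₀⟯ = ⊤`, `b₀` algebraic: `IntermediateField.adjoin_simple_toSubalgebra_of_integral`,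
   `Algebra.adjoin_singleton_eq_range_aeval`), clear denominators
   (`IsLocalization.integerNormalization_map_to_map` : `q_j P_j = h_j` with `h_j ∈ Q[T]`, `q_j ≠ 0`):
   `q_j b_j = h_j(b₀)` (in `L`, so in `B`). `δ₁ := ∏ q_j`; every `x = ∑ a_j b_j`, so
   `δ₁ x = ∑ a_j (∏_{l≠j} q_l) h_j(b₀)`.
   (Alternative: the set of `x : B` for which some `q ≠ 0` has `q x ∈ Q[b₀]` is a `Q`-submodule
   containing the generators; `Submodule.fg` induction.)
 * `Δ`: `g` is separable over `K`: the image `g_K = minpoly K b₀` (`minpoly.isIntegrallyClosed_eq_field_fractions`)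
   is irreducible, so separable in characteristic `0` (`Irreducible.separable`): `A g_K + B g_K' = 1`
   with `A, B ∈ K[T]`; clear denominators: `q₁ A = a`, `q₂ B = b` integral, `Δ := q₁ q₂`,
   `(q₂ a) g + (q₁ b) g' = C (q₁ q₂)` (injectivity of `Q[T] → K[T]`: `Polynomial.map_injective`).
-/

open MvPolynomial

namespace Pool.Agent.H91.RT

/-- Clearing denominators of a polynomial. -/
lemma clear_den {A : Type} [CommRing A] [IsDomain A] (P : Polynomial (FractionRing A)) :
    ∃ q : A, q ≠ 0 ∧ ∃ h : Polynomial A,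
      h.map (algebraMap A (FractionRing A)) = Polynomial.C (algebraMap A (FractionRing A) q) * P := by
  obtain ⟨b, hb, h⟩ := IsLocalization.integerNormalization_spec (nonZeroDivisors A) P
  refine ⟨b, nonZeroDivisors.ne_zero hb, IsLocalization.integerNormalization (nonZeroDivisors A) P, ?_⟩
  rw [h, ← algebraMap_smul (FractionRing A) b P, Polynomial.smul_eq_C_mul]

theorem prim_aux (A B : Type) [CommRing A] [IsDomain A] [IsIntegrallyClosed A] [CharZero A]
    [CommRing B] [IsDomain B] [Algebra A B] [Module.Finite A B] [FaithfulSMul A B] :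
    ∃ b₀ : B, (∀ x : B, ∃ q : A, q ≠ 0 ∧
        ∃ h : Polynomial A, algebraMap A B q * x = Polynomial.aeval b₀ h) ∧
      ∃ Δ : A, Δ ≠ 0 ∧ ∃ a b : Polynomial A,
        a * minpoly A b₀ + b * Polynomial.derivative (minpoly A b₀) = Polynomial.C Δ := by
  let K := FractionRing A
  let L := FractionRing B
  let _ : Algebra K L := FractionRing.liftAlgebra A L
  have : IsScalarTower A K L := FractionRing.isScalarTower_liftAlgebra A L
  have : FiniteDimensional K L := Module.Finite.of_isLocalization A B (nonZeroDivisors A)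
  have : CharZero K := charZero_of_injective_algebraMap (IsFractionRing.injective A K)
  obtain ⟨α, hα⟩ := Field.exists_primitive_element K L
  obtain ⟨x, y, hy, rfl⟩ := IsFractionRing.div_surjective (A := B) α
  obtain ⟨c, q, hq, h⟩ :=
    (Algebra.IsAlgebraic.isAlgebraic (R := A) y).exists_smul_eq_mul x hy
  have hy0 : algebraMap B L y ≠ 0 := by
    rw [Ne, FaithfulSMul.algebraMap_eq_zero_iff]
    exact nonZeroDivisors.ne_zero hy
  have hq0 : algebraMap A L q ≠ 0 := by
    rw [Ne, FaithfulSMul.algebraMap_eq_zero_iff]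
    exact hq
  have h1 : algebraMap B L x / algebraMap B L y = (algebraMap A L q)⁻¹ * algebraMap B L c := by
    rw [div_eq_iff hy0, mul_assoc, eq_inv_mul_iff_mul_eq₀ hq0, ← map_mul, mul_comm c y, ← h,
      Algebra.smul_def, map_mul, IsScalarTower.algebraMap_apply A B L]
  have htop : IntermediateField.adjoin K {algebraMap B L c} = ⊤ := by
    rw [eq_top_iff, ← hα, IntermediateField.adjoin_simple_le_iff, h1]
    refine mul_mem (inv_mem ?_) (IntermediateField.mem_adjoin_simple_self K _)
    rw [IsScalarTower.algebraMap_apply A K L]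
    exact IntermediateField.algebraMap_mem _ _
  have hint : IsIntegral A c := Algebra.IsIntegral.isIntegral c
  have hintK : IsIntegral K (algebraMap B L c) := Algebra.IsIntegral.isIntegral _
  refine ⟨c, fun z => ?_, ?_⟩
  · have h2 : algebraMap B L z ∈ (IntermediateField.adjoin K {algebraMap B L c}).toSubalgebra := by
      rw [htop]; trivial
    rw [IntermediateField.adjoin_simple_toSubalgebra_of_isAlgebraic hintK.isAlgebraic,
      Algebra.adjoin_singleton_eq_range_aeval] at h2
    obtain ⟨P, hP⟩ := h2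
    obtain ⟨r, hr, g, hg⟩ := clear_den P
    refine ⟨r, hr, g, ?_⟩
    apply IsFractionRing.injective B L
    rw [map_mul, ← IsScalarTower.algebraMap_apply A B L, ← hP, ← Polynomial.aeval_algebraMap_apply,
      ← Polynomial.aeval_map_algebraMap K, hg, map_mul, Polynomial.aeval_C,
      ← IsScalarTower.algebraMap_apply A K L]
    rfl
  · have hmin : (minpoly A c).map (algebraMap A K) = minpoly K (algebraMap B L c) := by
      rw [minpoly.isIntegrallyClosed_eq_field_fractions K L hint]
    have hsep : (minpoly K (algebraMap B L c)).Separable := (minpoly.irreducible hintK).separable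
    obtain ⟨a, b, hab⟩ := hsep
    obtain ⟨q₁, hq₁, a₁, ha₁⟩ := clear_den a
    obtain ⟨q₂, hq₂, b₁, hb₁⟩ := clear_den b
    refine ⟨q₁ * q₂, mul_ne_zero hq₁ hq₂, Polynomial.C q₂ * a₁, Polynomial.C q₁ * b₁, ?_⟩
    apply Polynomial.map_injective _ (IsFractionRing.injective A K)
    simp only [Polynomial.map_add, Polynomial.map_mul, Polynomial.map_C, map_mul]
    rw [ha₁, hb₁, ← Polynomial.derivative_map, hmin]
    linear_combination (Polynomial.C (algebraMap A K q₁) * Polynomial.C (algebraMap A K q₂)) * hab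

theorem exists_primData (B : Type) [CommRing B] [IsDomain B] [Algebra Q B] [Module.Finite Q B]
    (hinj : Function.Injective (algebraMap Q B)) : Nonempty (PrimData B) := by
  classical
  have : FaithfulSMul Q B := (faithfulSMul_iff_algebraMap_injective Q B).2 hinj
  obtain ⟨b₀, hcov, Δ, hΔ, hbez⟩ := prim_aux Q B
  have hint : IsIntegral Q b₀ := Algebra.IsIntegral.isIntegral b₀
  obtain ⟨s, hs⟩ := (Module.finite_def (R := Q) (M := B)).1 inferInstance
  choose q hq h hh using hcov
  refine ⟨⟨b₀, minpoly Q b₀, minpoly.monic hint, minpoly.aeval Q b₀,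
    fun f hf => minpoly.isIntegrallyClosed_dvd hint hf, ∏ b ∈ s, q b,
    Finset.prod_ne_zero_iff.2 fun b _ => hq b, ?_, Δ, hΔ, hbez⟩⟩
  intro x
  have hx : x ∈ Submodule.span Q (s : Set B) := by rw [hs]; trivial
  induction hx using Submodule.span_induction with
  | mem b hb =>
    refine ⟨Polynomial.C (∏ c ∈ s.erase b, q c) * h b, ?_⟩
    rw [map_mul, ← hh b, Polynomial.aeval_C, ← Finset.mul_prod_erase s q hb, map_mul]
    ring
  | zero => exact ⟨0, by simp⟩
  | add x y _ _ hx hy =>
    obtain ⟨f, hf⟩ := hx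
    obtain ⟨g, hg⟩ := hy
    exact ⟨f + g, by rw [mul_add, hf, hg, map_add]⟩
  | smul r x _ hx =>
    obtain ⟨f, hf⟩ := hx
    refine ⟨Polynomial.C r * f, ?_⟩
    rw [map_mul, Polynomial.aeval_C, ← hf, Algebra.smul_def]
    ring

end Pool.Agent.H91.RT
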