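import Pool.Agent.H91.RT.Dim
import Pool.Agent.H91.RT.Prim
import Pool.Agent.H91.RT.GridA
import Pool.Agent.H91.RT.GridB
import Pool.Agent.H91.RT.Choose
import Pool.Agent.H91.RT.Finite
import Pool.Agent.H91.RT.ChartEx
import Pool.Agent.H91.RT.Clear
import Pool.Agent.H91.RT.Power
import Pool.Agent.H91.RT.Large

/-!
# RT: a general pair of forms on a homogeneous domain of dimension three
-/

open MvPolynomial

namespace Pool.Agent.H91.RT

variable {n : ℕ} {I : Ideal (MvPolynomial (Fin n) ℂ)}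

/-- Homogeneous elements of `I + (u)` of degree `d ≥ m`. -/
lemma exists_homog_of_mem_one (hI : IsHomog I) {m d : ℕ} {u a : MvPolynomial (Fin n) ℂ}
    (hu : u.IsHomogeneous m) (ha : a.IsHomogeneous d) (hmd : m ≤ d)
    (h : a ∈ I ⊔ Ideal.span {u}) :
    ∃ b : MvPolynomial (Fin n) ℂ, b.IsHomogeneous (d - m) ∧ a - u * b ∈ I := by
  obtain ⟨i, hi, s, hs, his⟩ := Submodule.mem_sup.1 h
  obtain ⟨b, rfl⟩ := Ideal.mem_span_singleton'.1 hs
  refine ⟨homogeneousComponent (d - m) b, homogeneousComponent_isHomogeneous _ _, ?_⟩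
  have h1 : a = homogeneousComponent d i + u * homogeneousComponent (d - m) b := by
    conv_lhs => rw [← homogeneousComponent_eq_self ha, ← his, map_add]
    rw [mul_comm b u]
    conv_lhs => rw [show homogeneousComponent d (u * b) =
      homogeneousComponent (d - m + m) (u * b) by rw [Nat.sub_add_cancel hmd]]
    rw [component_mul hu]
  rw [h1, add_sub_cancel_right]
  exact hI i hi _

/-- Homogeneous elements of `I + (u, v)` of degree `d ≥ m`. -/
lemma exists_homog_of_mem_two (hI : IsHomog I) {m d : ℕ} {u v a : MvPolynomial (Fin n) ℂ}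
    (hu : u.IsHomogeneous m) (hv : v.IsHomogeneous m) (ha : a.IsHomogeneous d) (hmd : m ≤ d)
    (h : a ∈ I ⊔ Ideal.span {u, v}) :
    ∃ b c : MvPolynomial (Fin n) ℂ, b.IsHomogeneous (d - m) ∧ c.IsHomogeneous (d - m) ∧
      a - (u * b + v * c) ∈ I := by
  obtain ⟨i, hi, s, hs, his⟩ := Submodule.mem_sup.1 h
  obtain ⟨b, c, rfl⟩ := Ideal.mem_span_pair.1 hs
  refine ⟨homogeneousComponent (d - m) b, homogeneousComponent (d - m) c,
    homogeneousComponent_isHomogeneous _ _, homogeneousComponent_isHomogeneous _ _, ?_⟩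
  have h1 : a = homogeneousComponent d i + (u * homogeneousComponent (d - m) b +
      v * homogeneousComponent (d - m) c) := by
    conv_lhs => rw [← homogeneousComponent_eq_self ha, ← his, map_add, map_add]
    rw [mul_comm b u, mul_comm c v, ← component_mul hu, ← component_mul hv,
      Nat.sub_add_cancel hmd]
  rw [h1, add_sub_cancel_right]
  exact hI i hi _

/-- Linear forms are linear. -/
lemma eval_smul_linear {z : MvPolynomial (Fin n) ℂ} (hz : z.IsHomogeneous 1) (c : ℂ)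
    (y : Fin n → ℂ) : eval (c • y) z = c * eval y z := by
  rw [z.as_sum, map_sum, map_sum, Finset.mul_sum]
  refine Finset.sum_congr rfl fun s hs => ?_
  rw [eval_monomial, eval_monomial, Finsupp.prod, Finsupp.prod]
  have h1 : ∑ i ∈ s.support, s i = 1 := (hz.degree_eq_sum_deg_support hs).symm
  simp only [Pi.smul_apply, smul_eq_mul, mul_pow, Finset.prod_mul_distrib]
  rw [Finset.prod_pow_eq_pow_sum, h1]
  ring

/-- The ring theorem in terms of polynomials. -/
theorem exists_pair (hI : IsHomog I) (hprime : I.IsPrime)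
    (hdim : ringKrullDim (MvPolynomial (Fin n) ℂ ⧸ I) = 3) (m : ℕ) :
    ∃ (u v : MvPolynomial (Fin n) ℂ) (r : ℕ) (y : Fin r → Fin n → ℂ),
      u.IsHomogeneous m ∧ v.IsHomogeneous m ∧ u ∉ I ∧
      (∃ n₁ : ℕ, ∀ d : ℕ, n₁ ≤ d → ∀ a : MvPolynomial (Fin n) ℂ, a.IsHomogeneous d →
        v * a ∈ I ⊔ Ideal.span {u} →
        ∃ b : MvPolynomial (Fin n) ℂ, b.IsHomogeneous (d - m) ∧ a - u * b ∈ I) ∧
      (∀ j, ∀ p ∈ I, eval (y j) p = 0) ∧ (∀ j, y j ≠ 0) ∧
      (∀ i j, i ≠ j → ∀ c : ℂ, y i ≠ c • y j) ∧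
      (∀ j, eval (y j) u = 0) ∧ (∀ j, eval (y j) v = 0) ∧
      (∃ n₂ : ℕ, ∀ d : ℕ, n₂ ≤ d → ∀ a : MvPolynomial (Fin n) ℂ, a.IsHomogeneous d →
        (∀ j, eval (y j) a = 0) →
        ∃ b c : MvPolynomial (Fin n) ℂ, b.IsHomogeneous (d - m) ∧ c.IsHomogeneous (d - m) ∧
          a - (u * b + v * c) ∈ I) := by
  obtain ⟨D⟩ := exists_noeth hI hprime hdim
  obtain ⟨E⟩ := exists_chart hI hprime D
  obtain ⟨Pd⟩ := exists_primData E.B E.inj
  obtain ⟨c, d, hc, hd, hδ⟩ := exists_grid (mul_ne_zero Pd.δ₁_ne Pd.Δ_ne) m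
  have hfin := finite_points (B := E.B) c d
  let r := hfin.toFinset.card
  let e := hfin.toFinset.equivFin
  let φ : Fin r → (E.B →ₐ[ℂ] ℂ) := fun j => (e.symm j).1
  have hφ : ∀ j, φ j (algebraMap Q E.B (uu c)) = 0 ∧ φ j (algebraMap Q E.B (vv d)) = 0 := by
    intro j
    have := hfin.mem_toFinset.1 (e.symm j).2
    exact this
  have hφ' : ∀ ψ : E.B →ₐ[ℂ] ℂ, ψ (algebraMap Q E.B (uu c)) = 0 →
      ψ (algebraMap Q E.B (vv d)) = 0 → ∃ j, φ j = ψ := by
    intro ψ h1 h2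
    refine ⟨e ⟨ψ, hfin.mem_toFinset.2 ⟨h1, h2⟩⟩, ?_⟩
    simp [φ]
  have hφinj : Function.Injective φ := fun i j h => e.symm.injective (Subtype.ext h)
  have hz : ∀ ψ : E.B →ₐ[ℂ] ℂ, eval (E.pt ψ) (D.z 2) = 1 := by
    intro ψ
    rw [E.eval_pt, E.θ2, map_one]
  have hU := D.isHomogeneous_U c
  have hV := D.isHomogeneous_V d
  refine ⟨D.U c, D.V d, r, fun j => E.pt (φ j), hU, hV, ?_, ?_, ?_, ?_, ?_, ?_, ?_, ?_⟩
  · intro h
    have h1 := E.zero _ h
    rw [E.θ_U] at h1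
    exact uu_ne c (E.inj (h1.trans (map_zero _).symm))
  · have hA : ∀ (f : MvPolynomial (Fin n) ℂ) (k : ℕ), f.IsHomogeneous k →
        D.V d * f ∈ I ⊔ Ideal.span {D.U c} →
        ∃ e : ℕ, D.z 2 ^ e * f ∈ I ⊔ Ideal.span {D.U c} := by
      intro f k hf hvf
      refine clear1 E hU hf ?_
      obtain ⟨i, hi, s, hs, his⟩ := Submodule.mem_sup.1 hvf
      obtain ⟨b, rfl⟩ := Ideal.mem_span_singleton'.1 hs
      rw [E.θ_U]
      refine grid_b Pd hc hd hδ (E.θ f) (E.θ b) ?_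
      rw [← E.θ_V, ← E.θ_U, ← map_mul, ← his, map_add, E.zero i hi, zero_add, map_mul, mul_comm]
    have hB : ∀ (f : MvPolynomial (Fin n) ℂ) (k : ℕ), f.IsHomogeneous k →
        D.V d * f ∈ I ⊔ Ideal.span {D.U c} → ∀ w ∈ I ⊔ Ideal.span {D.U c, D.V d},
        w * f ∈ I ⊔ Ideal.span {D.U c} := by
      intro f k hf hvf w hw
      obtain ⟨i, hi, s, hs, rfl⟩ := Submodule.mem_sup.1 hw
      obtain ⟨α, β, rfl⟩ := Ideal.mem_span_pair.1 hs
      have h1 : (i + (α * D.U c + β * D.V d)) * f = i * f + (α * f) * D.U c +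
          β * (D.V d * f) := by ring
      rw [h1]
      refine Ideal.add_mem _ (Ideal.add_mem _ ?_ ?_) (Ideal.mul_mem_left _ _ hvf)
      · exact Ideal.mem_sup_left (Ideal.mul_mem_right _ _ hi)
      · exact Ideal.mem_sup_right (Ideal.mul_mem_left _ _ (Ideal.mem_span_singleton_self _))
    obtain ⟨n₀, hn₀⟩ := exists_large (D.z 2) _ hA hB (fun e => exists_pow_le D c d e)
    refine ⟨max n₀ m, fun k hk a ha hva => ?_⟩
    exact exists_homog_of_mem_one hI hU ha (le_trans (le_max_right _ _) hk)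
      (hn₀ k (le_trans (le_max_left _ _) hk) a ha hva)
  · intro j p hp
    rw [E.eval_pt, E.zero p hp, map_zero]
  · intro j h
    have h1 := hz (φ j)
    have h3 : eval (E.pt (φ j)) (D.z 2) = 0 := by
      rw [show E.pt (φ j) = 0 from h]
      have := (D.hz 2).coeff_eq_zero (d := 0) (by simp)
      simpa [MvPolynomial.eval_zero', constantCoeff_eq] using this
    rw [h3] at h1
    exact zero_ne_one h1
  · intro i j hij c' h
    have h1 := hz (φ i)
    rw [show E.pt (φ i) = c' • E.pt (φ j) from h, eval_smul_linear (D.hz 2), hz, mul_one] at h1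
    rw [h1, one_smul] at h
    exact hij (hφinj (E.pt_injective h))
  · intro j
    rw [E.eval_pt, E.θ_U, (hφ j).1]
  · intro j
    rw [E.eval_pt, E.θ_V, (hφ j).2]
  · have hA : ∀ (f : MvPolynomial (Fin n) ℂ) (k : ℕ), f.IsHomogeneous k →
        (∀ j, eval (E.pt (φ j)) f = 0) →
        ∃ e : ℕ, D.z 2 ^ e * f ∈ I ⊔ Ideal.span {D.U c, D.V d} := by
      intro f k hf hvf
      refine clear2 E hU hV hf ?_
      rw [E.θ_U, E.θ_V]
      refine grid_a Pd hc hd hδ (E.θ f) fun ψ h1 h2 => ?_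
      obtain ⟨j, rfl⟩ := hφ' ψ h1 h2
      rw [← E.eval_pt]
      exact hvf j
    obtain ⟨n₀, hn₀⟩ := exists_large (D.z 2) _ hA
      (fun f k hf hvf w hw => Ideal.mul_mem_right _ _ hw) (fun e => exists_pow_le D c d e)
    refine ⟨max n₀ m, fun k hk a ha hva => ?_⟩
    exact exists_homog_of_mem_two hI hU hV ha (le_trans (le_max_right _ _) hk)
      (hn₀ k (le_trans (le_max_left _ _) hk) a ha hva)

end Pool.Agent.H91.RT
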