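import Mathlib

/-!
# RT, affine part: definitions

`Q = ℂ[s, t]`, `uu c = ∏ (s - c_i)`, `vv d = ∏ (t - d_j)`; primitive element data of a domain which is
finite over `Q`.
-/

open MvPolynomial

namespace Pool.Agent.H91.RT

/-- `ℂ[s, t]` -/
abbrev Q : Type := MvPolynomial (Fin 2) ℂ

/-- `∏ (s - c_i)` -/
noncomputable def uu {m : ℕ} (c : Fin m → ℂ) : Q := ∏ i, (X 0 - C (c i))

/-- `∏ (t - d_j)` -/
noncomputable def vv {m : ℕ} (d : Fin m → ℂ) : Q := ∏ i, (X 1 - C (d i))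

/-- Evaluation at the point `(c, d)`. -/
noncomputable def evp (c d : ℂ) : Q →+* ℂ := eval ![c, d]

/-- Primitive element data of a ring `B` over `Q`: an element `b₀` with monic minimal polynomial
`g`, a common denominator `δ₁` (`δ₁ B ⊆ Q[b₀]`), and a nonzero `Δ` in the ideal `(g, g')`. -/
structure PrimData (B : Type) [CommRing B] [Algebra Q B] where
  b₀ : B
  g : Polynomial Q
  monic : g.Monic
  root : Polynomial.aeval b₀ g = 0
  dvd : ∀ h : Polynomial Q, Polynomial.aeval b₀ h = 0 → g ∣ h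
  δ₁ : Q
  δ₁_ne : δ₁ ≠ 0
  cover : ∀ x : B, ∃ h : Polynomial Q, algebraMap Q B δ₁ * x = Polynomial.aeval b₀ h
  Δ : Q
  Δ_ne : Δ ≠ 0
  bez : ∃ a' b' : Polynomial Q, a' * g + b' * Polynomial.derivative g = Polynomial.C Δ

variable {m : ℕ}

@[simp] lemma evp_uu (a b : ℂ) (c : Fin m → ℂ) : evp a b (uu c) = ∏ i, (a - c i) := by
  simp [evp, uu]

@[simp] lemma evp_vv (a b : ℂ) (d : Fin m → ℂ) : evp a b (vv d) = ∏ i, (b - d i) := by
  simp [evp, vv]

lemma X_sub_C_ne (k : Fin 2) (a : ℂ) : (X k - C a : Q) ≠ 0 := by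
  intro h
  have := congrArg (eval fun _ => a + 1) h
  simp at this

lemma uu_ne (c : Fin m → ℂ) : uu c ≠ 0 :=
  Finset.prod_ne_zero_iff.2 fun i _ => X_sub_C_ne 0 (c i)

lemma vv_ne (d : Fin m → ℂ) : vv d ≠ 0 :=
  Finset.prod_ne_zero_iff.2 fun i _ => X_sub_C_ne 1 (d i)

end Pool.Agent.H91.RT
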