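import Mathlib

/-!
# RT, basics: the ideal of the variables, homogeneous elements, linear Noether data

`P = MvPolynomial (Fin n) ℂ`; `mm n` is the ideal generated by the variables.
-/

open MvPolynomial

namespace Pool.Agent.H91.RT

/-- The ideal of `ℂ[x_0, …, x_{n-1}]` generated by the variables. -/
noncomputable def mm (n : ℕ) : Ideal (MvPolynomial (Fin n) ℂ) := Ideal.span (Set.range X)

/-- Ideals which contain the homogeneous components of their elements. -/
def IsHomog {n : ℕ} (I : Ideal (MvPolynomial (Fin n) ℂ)) : Prop :=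
  ∀ p ∈ I, ∀ d : ℕ, homogeneousComponent d p ∈ I

lemma X_mem_mm {n : ℕ} (i : Fin n) : (X i : MvPolynomial (Fin n) ℂ) ∈ mm n :=
  Ideal.subset_span ⟨i, rfl⟩

lemma monomial_mem_mm_pow {n : ℕ} (s : Fin n →₀ ℕ) (c : ℂ) :
    (monomial s c : MvPolynomial (Fin n) ℂ) ∈ mm n ^ s.degree := by
  rw [monomial_eq, Finsupp.degree_apply, ← Finset.prod_pow_eq_pow_sum]
  refine Ideal.mul_mem_left _ _ ?_
  rw [Finsupp.prod]
  exact Ideal.prod_mem_prod fun i _ => Ideal.pow_mem_pow (X_mem_mm i) _

/-- Homogeneous polynomials of degree `d ≥ k` lie in the `k`-th power of the ideal of the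
variables. -/
lemma mem_mm_pow {n d k : ℕ} {p : MvPolynomial (Fin n) ℂ} (hp : p.IsHomogeneous d) (h : k ≤ d) :
    p ∈ mm n ^ k := by
  refine Ideal.pow_le_pow_right h ?_
  rw [p.as_sum]
  refine Ideal.sum_mem _ fun s hs => ?_
  rw [show d = s.degree from hp.degree_eq_sum_deg_support hs]
  exact monomial_mem_mm_pow s _

/-- The homogeneous component of a product with a homogeneous factor. -/
lemma component_mul {n d k : ℕ} {t : MvPolynomial (Fin n) ℂ} (ht : t.IsHomogeneous k)
    (p : MvPolynomial (Fin n) ℂ) :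
    homogeneousComponent (d + k) (t * p) = t * homogeneousComponent d p := by
  conv_lhs => rw [← sum_homogeneousComponent p]
  rw [Finset.mul_sum, map_sum]
  have : ∀ i, homogeneousComponent (d + k) (t * homogeneousComponent i p) =
      if i = d then t * homogeneousComponent d p else 0 := by
    intro i
    rw [homogeneousComponent_of_mem (ht.mul (homogeneousComponent_isHomogeneous i p))]
    by_cases h : i = d
    · subst h
      rw [if_pos (by omega), if_pos rfl]
    · rw [if_neg (by omega), if_neg h]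
  rw [Finset.sum_congr rfl fun i _ => this i, Finset.sum_ite_eq']
  split_ifs with h
  · rfl
  · rw [Finset.mem_range, not_lt] at h
    rw [homogeneousComponent_eq_zero _ _ (by omega), mul_zero]

/-- The homogeneous component of low degree of a product with a homogeneous factor. -/
lemma component_mul_of_lt {n d k : ℕ} {t : MvPolynomial (Fin n) ℂ} (ht : t.IsHomogeneous k)
    (p : MvPolynomial (Fin n) ℂ) (h : d < k) :
    homogeneousComponent d (t * p) = 0 := by
  conv_lhs => rw [← sum_homogeneousComponent p]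
  rw [Finset.mul_sum, map_sum]
  refine Finset.sum_eq_zero fun i _ => ?_
  rw [homogeneousComponent_of_mem (ht.mul (homogeneousComponent_isHomogeneous i p)),
    if_neg (by omega)]

/-- Linear Noether data of dimension three: three linear forms, algebraically independent modulo
`I`, such that `I + (z)` contains all polynomials of large degree. -/
structure Noeth {n : ℕ} (I : Ideal (MvPolynomial (Fin n) ℂ)) where
  z : Fin 3 → MvPolynomial (Fin n) ℂ
  hz : ∀ i, (z i).IsHomogeneous 1
  k : ℕ
  hk : mm n ^ k ≤ I ⊔ Ideal.span (Set.range z)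
  inj : ∀ g : MvPolynomial (Fin 3) ℂ, aeval z g ∈ I → g = 0

/-- A homogeneous polynomial of large degree is a combination of the forms `z i`, modulo `I`, with
homogeneous coefficients. -/
lemma decomp {n q : ℕ} {I : Ideal (MvPolynomial (Fin n) ℂ)} (hI : IsHomog I)
    {z : Fin q → MvPolynomial (Fin n) ℂ} (hz : ∀ i, (z i).IsHomogeneous 1) {k : ℕ}
    (hk : mm n ^ k ≤ I ⊔ Ideal.span (Set.range z)) {d : ℕ} (hd : k ≤ d + 1)
    {p : MvPolynomial (Fin n) ℂ} (hp : p.IsHomogeneous (d + 1)) :
    ∃ b : Fin q → MvPolynomial (Fin n) ℂ, (∀ i, (b i).IsHomogeneous d) ∧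
      p - ∑ i, z i * b i ∈ I := by
  obtain ⟨a, ha, s, hs, has⟩ := Submodule.mem_sup.1 (hk (mem_mm_pow hp hd))
  obtain ⟨b, rfl⟩ := (Ideal.mem_span_range_iff_exists_fun (R := MvPolynomial (Fin n) ℂ)).1 hs
  refine ⟨fun i => homogeneousComponent d (b i),
    fun i => homogeneousComponent_isHomogeneous _ _, ?_⟩
  have h1 : p = homogeneousComponent (d + 1) a + ∑ i, z i * homogeneousComponent d (b i) := by
    conv_lhs => rw [← homogeneousComponent_eq_self hp, ← has, map_add, map_sum]
    congr 1
    refine Finset.sum_congr rfl fun i _ => ?_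
    rw [mul_comm (b i), component_mul (hz i)]
  rw [h1, add_sub_cancel_right]
  exact hI a ha _

namespace Noeth

variable {n : ℕ} {I : Ideal (MvPolynomial (Fin n) ℂ)} (D : Noeth I) {m : ℕ}

/-- The form `∏ (z_0 - c_i z_2)`. -/
noncomputable def U (c : Fin m → ℂ) : MvPolynomial (Fin n) ℂ := ∏ i, (D.z 0 - C (c i) * D.z 2)

/-- The form `∏ (z_1 - d_i z_2)`. -/
noncomputable def V (d : Fin m → ℂ) : MvPolynomial (Fin n) ℂ := ∏ i, (D.z 1 - C (d i) * D.z 2)

lemma isHomogeneous_lin (a b : Fin 3) (c : ℂ) : (D.z a - C c * D.z b).IsHomogeneous 1 :=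
  (D.hz a).sub ((D.hz b).C_mul c)

lemma isHomogeneous_U (c : Fin m → ℂ) : (D.U c).IsHomogeneous m := by
  have := IsHomogeneous.prod Finset.univ (fun i => D.z 0 - C (c i) * D.z 2) (fun _ => 1)
    fun i _ => D.isHomogeneous_lin 0 2 (c i)
  simpa [U] using this

lemma isHomogeneous_V (d : Fin m → ℂ) : (D.V d).IsHomogeneous m := by
  have := IsHomogeneous.prod Finset.univ (fun i => D.z 1 - C (d i) * D.z 2) (fun _ => 1)
    fun i _ => D.isHomogeneous_lin 1 2 (d i)
  simpa [V] using this

end Noeth

end Pool.Agent.H91.RT
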