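import Pool.Agent.H91.RT.Basic
import Pool.Agent.H91.RT.Affine

/-!
# RT: charts (definition)
-/

open MvPolynomial

namespace Pool.Agent.H91.RT

/-- The chart `z_2 = 1` of the cone of `I`: a domain `B`, finite over `Q = ℂ[s, t]` with
`s = z_0 / z_2`, `t = z_1 / z_2`, and the dehomogenisation map `θ : ℂ[x] → B`. -/
structure Chart {n : ℕ} {I : Ideal (MvPolynomial (Fin n) ℂ)} (D : Noeth I) where
  B : Type
  [ring : CommRing B]
  [dom : IsDomain B]
  [algC : Algebra ℂ B]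
  [algQ : Algebra Q B]
  [tower : IsScalarTower ℂ Q B]
  [fin : Module.Finite Q B]
  inj : Function.Injective (algebraMap Q B)
  θ : MvPolynomial (Fin n) ℂ →ₐ[ℂ] B
  surj : Function.Surjective θ
  zero : ∀ p ∈ I, θ p = 0
  θ0 : θ (D.z 0) = algebraMap Q B (X 0)
  θ1 : θ (D.z 1) = algebraMap Q B (X 1)
  θ2 : θ (D.z 2) = 1
  ker : ∀ (f : MvPolynomial (Fin n) ℂ) (d : ℕ), f.IsHomogeneous d → θ f = 0 → f ∈ I

attribute [instance] Chart.ring Chart.dom Chart.algC Chart.algQ Chart.tower Chart.fin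

namespace Chart

variable {n : ℕ} {I : Ideal (MvPolynomial (Fin n) ℂ)} {D : Noeth I} (E : Chart D) {m : ℕ}

lemma θ_C (a : ℂ) : E.θ (C a) = algebraMap Q E.B (C a) := by
  rw [← MvPolynomial.algebraMap_eq, ← MvPolynomial.algebraMap_eq, E.θ.commutes,
    ← IsScalarTower.algebraMap_apply]

lemma θ_U (c : Fin m → ℂ) : E.θ (D.U c) = algebraMap Q E.B (uu c) := by
  simp [Noeth.U, uu, map_prod, E.θ0, E.θ2, E.θ_C]

lemma θ_V (d : Fin m → ℂ) : E.θ (D.V d) = algebraMap Q E.B (vv d) := by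
  simp [Noeth.V, vv, map_prod, E.θ1, E.θ2, E.θ_C]

/-- The point of the cone over a point of the chart. -/
noncomputable def pt (φ : E.B →ₐ[ℂ] ℂ) : Fin n → ℂ := fun i => φ (E.θ (X i))

lemma eval_pt (φ : E.B →ₐ[ℂ] ℂ) (p : MvPolynomial (Fin n) ℂ) : eval (E.pt φ) p = φ (E.θ p) := by
  have : aeval (E.pt φ) = φ.comp E.θ := by
    ext i
    simp [pt]
  rw [← MvPolynomial.coe_aeval_eq_eval]
  exact congrArg (fun f => f p) this

lemma pt_injective : Function.Injective E.pt := by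
  intro φ ψ h
  ext b
  obtain ⟨p, rfl⟩ := E.surj b
  rw [← eval_pt, ← eval_pt, h]

end Chart

end Pool.Agent.H91.RT
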