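import Pool.Agent.H91.RT.Noether

/-!
# RT-2  Dimension of integral extensions; the Noether data of a prime of dimension three

PROOF of `ringKrullDim_eq_of_integral`. `≤`: `PrimeSpectrum.comap` is strictly monotone for integral
extensions (incomparability, `Ideal.comap_lt_comap_of_integral_mem_sdiff` or
`Ideal.IsIntegral.comap_lt_comap` / `Ideal.comap_lt_comap_of_root_mem_sdiff`, see
Mathlib/RingTheory/Ideal/GoingUp.lean), so `Order.krullDim_le_of_strictMono`. `≥`: for
`l : LTSeries (PrimeSpectrum R)` there is a prime `P` of `S` over `l.head` (lying over: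
`Ideal.exists_ideal_over_prime_of_isIntegral_of_isDomain`-type lemma, or
`Ideal.exists_ideal_over_prime_of_isIntegral` / `Ideal.exists_ideal_liesOver_maximal..`; kernel `= ⊥`
by `h`), and `Ideal.exists_ltSeries_of_hasGoingUp l P` gives a series of the same length in `S`;
`Algebra.HasGoingUp.of_isIntegral` is an instance. (If `R` or `S` is trivial both are; not needed if
one argues with series.) `ringKrullDim = Order.krullDim (PrimeSpectrum _)`,
`Order.krullDim = ⨆ l : LTSeries, l.length`.

PROOF of `finite_of_linear`. Let `φ : MvPolynomial (Fin q) ℂ → P ⧸ I` be the map, `M` the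
`MvPolynomial (Fin q) ℂ`-submodule of `P ⧸ I` (module structure through `φ`:
`letI := φ.toRingHom.toAlgebra`) spanned by the classes of the finitely many monomials
`monomial s 1` with `s.degree < k` (this set of `s` is finite: e.g. it is contained in the set of `s`
with `∀ i, s i < k` ; or use the finite set
`⋃ d < k, (homogeneousSubmodule_fg ..)`: Mathlib `homogeneousSubmodule_fg` says that the homogeneous
polynomials of degree `d` are a finitely generated `ℂ`-module; then `M` := span of the images of
generators of `homogeneousSubmodule (Fin n) ℂ d`, `d < k`). Claim: `mk p ∈ M` for `p` homogeneous of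
degree `d`, by strong induction on `d`: if `d < k` clear; otherwise `k ≤ d`; if `k = 0` then `d` may
be `0`: if `d = 0` and `k = 0` then `1 ∈ mm ^ 0 ≤ I ⊔ span z`, and taking the degree `0` component
`1 ∈ I` (elements of `span z` have no constant term, `component_mul_of_lt`); so `mk p = 0`.
(simplest: replace `k` by `k + 1` at the start, using `mm ^ (k+1) ≤ mm ^ k`, so that `d < k` covers
`d = 0`.) For `d = d' + 1 ≥ k`: `decomp` gives `mk p = ∑ φ(X_i) • mk (b i)` with `b i` homogeneous of
degree `d'`. Finally every `p` is the sum of its homogeneous components.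
So `P ⧸ I` is a finite module: `RingHom.Finite`.

PROOF of `exists_noeth`. `exists_linear_noether` gives `q, z, k`. `φ` is injective by the third
property and finite, so integral, so `ringKrullDim (P ⧸ I) = ringKrullDim (MvPolynomial (Fin q) ℂ)
= q` (`MvPolynomial.ringKrullDim_of_isNoetherianRing`, `ringKrullDim_eq_zero_of_field`), so `q = 3`
(`subst`), and `⟨z, _, k, _, _⟩`.
-/

open MvPolynomial

namespace Pool.Agent.H91.RT

theorem ringKrullDim_eq_of_integral {R S : Type*} [CommRing R] [CommRing S] [Algebra R S]
    [Algebra.IsIntegral R S] (h : Function.Injective (algebraMap R S)) :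
    ringKrullDim S = ringKrullDim R := by
  apply le_antisymm
  · refine Order.krullDim_le_of_strictMono (PrimeSpectrum.comap (algebraMap R S)) ?_
    intro P Q hPQ
    exact Ideal.IsIntegral.comap_lt_comap (R := R) (I := P.asIdeal) (J := Q.asIdeal) hPQ
  · refine iSup_le fun l => ?_
    obtain ⟨Q, -, hQ, hQl⟩ := Ideal.exists_ideal_over_prime_of_isIntegral
      (l.head.asIdeal) (⊥ : Ideal S) (by
        rw [← RingHom.ker_eq_comap_bot, (RingHom.injective_iff_ker_eq_bot _).1 h]
        exact bot_le)
    have : Q.LiesOver l.head.asIdeal := ⟨hQl.symm⟩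
    obtain ⟨L, hL, -, -⟩ := Ideal.exists_ltSeries_of_hasGoingUp l Q
    rw [← hL]
    exact Order.LTSeries.length_le_krullDim L

/-- A finite injective ring homomorphism from `ℂ[x_1, …, x_q]` determines the dimension. -/
theorem dim_of_finite {S : Type*} [CommRing S] {q : ℕ} (φ : MvPolynomial (Fin q) ℂ →+* S)
    (hfin : φ.Finite) (hinj : Function.Injective φ) : ringKrullDim S = q := by
  let : Algebra (MvPolynomial (Fin q) ℂ) S := φ.toAlgebra
  have hfin' : Module.Finite (MvPolynomial (Fin q) ℂ) S := hfin
  have hint : Algebra.IsIntegral (MvPolynomial (Fin q) ℂ) S := Algebra.IsIntegral.of_finite _ _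
  have h1 : Function.Injective (algebraMap (MvPolynomial (Fin q) ℂ) S) := hinj
  rw [ringKrullDim_eq_of_integral h1, MvPolynomial.ringKrullDim_of_isNoetherianRing,
    ringKrullDim_eq_zero_of_field, Nat.card_eq_fintype_card, Fintype.card_fin, zero_add]

/-- The finiteness argument, for a general target ring. -/
theorem finite_aux {S : Type*} [CommRing S] {n q : ℕ} (π : MvPolynomial (Fin n) ℂ →+* S)
    (hπ : Function.Surjective π) (φ : MvPolynomial (Fin q) ℂ →+* S)
    (hC : ∀ c : ℂ, φ (C c) = π (C c)) (k : ℕ)
    (hdec : ∀ (d : ℕ) (p : MvPolynomial (Fin n) ℂ), k ≤ d + 1 → p.IsHomogeneous (d + 1) →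
      ∃ b : Fin q → MvPolynomial (Fin n) ℂ, (∀ i, (b i).IsHomogeneous d) ∧
        π p = ∑ i, φ (X i) * π (b i)) : φ.Finite := by
  classical
  let : Algebra (MvPolynomial (Fin q) ℂ) S := φ.toAlgebra
  have hsmul : ∀ (g : MvPolynomial (Fin q) ℂ) (x : S), g • x = φ g * x := fun g x =>
    Algebra.smul_def g x
  choose s hs using fun d => homogeneousSubmodule_fg (σ := Fin n) (R := ℂ) d
  let T : Finset S := (Finset.range (k + 1)).biUnion fun d => (s d).image π
  change Module.Finite (MvPolynomial (Fin q) ℂ) S
  refine ⟨⟨T, ?_⟩⟩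
  rw [eq_top_iff]
  have key : ∀ (d : ℕ) (p : MvPolynomial (Fin n) ℂ), p.IsHomogeneous d →
      π p ∈ Submodule.span (MvPolynomial (Fin q) ℂ) (T : Set S) := by
    intro d
    induction d using Nat.strong_induction_on with
    | _ d ih =>
      intro p hp
      by_cases hd : d < k + 1
      · have hp' : p ∈ Submodule.span ℂ (s d : Set (MvPolynomial (Fin n) ℂ)) := by
          rw [hs d]
          exact (mem_homogeneousSubmodule d p).2 hp
        clear hp
        induction hp' using Submodule.span_induction with
        | mem x hx =>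
          refine Submodule.subset_span ?_
          simp only [T, Finset.coe_biUnion, Set.mem_iUnion, Finset.coe_range, Set.mem_Iio,
            Finset.coe_image, Set.mem_image]
          exact ⟨d, hd, x, hx, rfl⟩
        | zero => rw [map_zero]; exact Submodule.zero_mem _
        | add x y hx hy h1 h2 =>
          rw [map_add]
          exact Submodule.add_mem _ h1 h2
        | smul c x hx h1 =>
          have h2 : π (c • x) = (C c : MvPolynomial (Fin q) ℂ) • π x := by
            rw [hsmul, hC, MvPolynomial.smul_eq_C_mul, map_mul]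
          rw [h2]
          exact Submodule.smul_mem _ _ h1
      · obtain ⟨d', rfl⟩ : ∃ d', d = d' + 1 := ⟨d - 1, by omega⟩
        obtain ⟨b, hb, hpb⟩ := hdec d' p (by omega) hp
        rw [hpb]
        refine Submodule.sum_mem _ fun i _ => ?_
        rw [← hsmul]
        exact Submodule.smul_mem _ _ (ih d' (by omega) (b i) (hb i))
  rintro x -
  obtain ⟨p, rfl⟩ := hπ x
  rw [← sum_homogeneousComponent p, map_sum]
  exact Submodule.sum_mem _ fun i _ => key i _ (homogeneousComponent_isHomogeneous i p)

variable {n : ℕ} {I : Ideal (MvPolynomial (Fin n) ℂ)}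

theorem finite_of_linear {q : ℕ} (hI : IsHomog I) (z : Fin q → MvPolynomial (Fin n) ℂ)
    (hz : ∀ i, (z i).IsHomogeneous 1) {k : ℕ} (hk : mm n ^ k ≤ I ⊔ Ideal.span (Set.range z)) :
    ((Ideal.Quotient.mkₐ ℂ I).comp (aeval z)).toRingHom.Finite := by
  have hX : ∀ i, ((Ideal.Quotient.mkₐ ℂ I).comp (aeval z)).toRingHom (X i) =
      Ideal.Quotient.mk I (z i) := by
    intro i
    change Ideal.Quotient.mk I (aeval z (X i)) = _
    rw [aeval_X]
  refine finite_aux (Ideal.Quotient.mk I) Ideal.Quotient.mk_surjective _ ?_ k ?_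
  · intro c
    change Ideal.Quotient.mk I (aeval z (C c)) = _
    rw [aeval_C, MvPolynomial.algebraMap_eq]
  · intro d p hd hp
    obtain ⟨b, hb, hpb⟩ := decomp hI hz hk hd hp
    refine ⟨b, hb, ?_⟩
    rw [Ideal.Quotient.eq.2 hpb, map_sum]
    refine Finset.sum_congr rfl fun i _ => ?_
    rw [hX, map_mul]

theorem exists_noeth (hI : IsHomog I) (hprime : I.IsPrime)
    (hdim : ringKrullDim (MvPolynomial (Fin n) ℂ ⧸ I) = 3) : Nonempty (Noeth I) := by
  obtain ⟨q, z, hz, ⟨k, hk⟩, hinj⟩ := exists_linear_noether hI hprime.ne_top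
  have hfin := finite_of_linear hI z hz hk
  have h1 : Function.Injective ((Ideal.Quotient.mkₐ ℂ I).comp (aeval z)).toRingHom := by
    rw [injective_iff_map_eq_zero]
    intro g hg
    exact hinj g (Ideal.Quotient.eq_zero_iff_mem.1 hg)
  have h2 := dim_of_finite _ hfin h1
  rw [hdim] at h2
  have h3 : q = 3 := by exact_mod_cast h2.symm
  subst h3
  exact ⟨⟨z, hz, k, hk, hinj⟩⟩

end Pool.Agent.H91.RT
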