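import Pool.Agent.H91.RT.Affine

/-!
# RT-4  Polynomials in two variables on a grid

PROOF of `mem_of_vanish`. Mathlib: `MvPolynomial.combinatorial_nullstellensatz_exists_linearCombination`
(`S 0 = image of c`, `S 1 = image of d`; `∏ s ∈ S i, (X i - C s)` are `uu c`, `vv d` by injectivity,
`Finset.prod_image`), which gives `p = ∑ i, h i * ∏ s ∈ S i, (X i - C s)`; `Fin.sum_univ_two`,
`Ideal.mem_span_pair`.

PROOF of `one_mem`. `F := ∏ i, ∏ j, (X - C (evp (c i) (d j) δ)) ∈ ℂ[T]`. `F(δ) = aeval δ F ∈ Q` vanishes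
on the grid, so it is in `(u, v)`. `F = F(0) + X * G` (`Polynomial.divX_mul_X_add`), so
`C (F.eval 0) = F(δ) - δ G(δ) ∈ (δ, u, v)` and `F.eval 0 = ± ∏ δ(p) ≠ 0`, a unit.

PROOF of `dvd_of_vv_mul`. `uu c` and `vv d` are relatively prime in the UFD `Q`:
`X 0 - C a` is prime (`MvPolynomial.X..prime`? : it is `(X 0)` up to the automorphism
`X 0 ↦ X 0 - C a`; or: it is irreducible, of total degree one; or: `Q ⧸ (X 0 - C a)` ≅ range of the
evaluation `Q → ℂ[T]`, `X 0 ↦ C a`, `X 1 ↦ T` whose kernel is `(X 0 - C a)`); it does not divide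
`vv d` since `vv d (a, b) ≠ 0` for `b` outside the `d j`. Without primes: by induction on the number
of factors of `uu c` it is enough that `(X 0 - C a) ∣ vv d * q → (X 0 - C a) ∣ q`; and
`(X 0 - C a) ∣ p ↔ ` the polynomial `p(a, T) ∈ ℂ[T]` (`aeval ![C a, X]`) is zero; `vv d (a, T) =
∏ (T - d j) ≠ 0` and `ℂ[T]` is a domain.  (`→` of the iff is clear; `←`: via
`p - C-part`: `p ≡ p(a, X 1) mod (X 0 - C a)`, i.e. the two ring homs `Q → Q ⧸ (X 0 - C a)`, `mk` and
`p ↦ mk (p(a, X 1))`, agree on the variables: `MvPolynomial.ringHom_ext`.)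
Induction: `uu c = ∏ over s : Finset (Fin m)`; statement for all finsets `s`:
`∏_{i ∈ s} (X 0 - C (c i)) ∣ vv d * q → ∏_{i ∈ s} (X 0 - C (c i)) ∣ q`; `Finset.induction_on`:
`insert i s`: `(X 0 - C (c i)) ∣ q`, `q = (X 0 - C (c i)) q'`, cancel, apply the induction hypothesis
to `q'`.
-/

open MvPolynomial

namespace Pool.Agent.H91.RT

variable {m : ℕ}

theorem mem_of_vanish {c d : Fin m → ℂ} (hc : Function.Injective c) (hd : Function.Injective d)
    (p : Q) (hp : ∀ i j, evp (c i) (d j) p = 0) : p ∈ Ideal.span {uu c, vv d} := by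
  classical
  rcases Nat.eq_zero_or_pos m with h0 | hm
  · subst h0
    have h1 : uu c = 1 := by simp [uu]
    have h2 : (1 : Q) ∈ Ideal.span {uu c, vv d} := by
      rw [h1]
      exact Ideal.subset_span (Set.mem_insert _ _)
    rw [(Ideal.eq_top_iff_one _).2 h2]
    exact Submodule.mem_top
  · have hne : Nonempty (Fin m) := ⟨⟨0, hm⟩⟩
    let S : Fin 2 → Finset ℂ := ![Finset.univ.image c, Finset.univ.image d]
    obtain ⟨h, -, hf⟩ := combinatorial_nullstellensatz_exists_linearCombination S (by
      intro i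
      fin_cases i
      · exact Finset.univ_nonempty.image c
      · exact Finset.univ_nonempty.image d) p (by
      intro x hx
      have hx0 := hx 0
      have hx1 := hx 1
      simp only [S, Matrix.cons_val_zero, Matrix.cons_val_one, Finset.mem_image, Finset.mem_univ,
        true_and] at hx0 hx1
      obtain ⟨i, hi⟩ := hx0
      obtain ⟨j, hj⟩ := hx1
      have h1 := hp i j
      rw [hi, hj] at h1
      have h2 : ![x 0, x 1] = x := by
        funext k
        fin_cases k <;> rfl
      rw [evp, h2] at h1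
      exact h1)
    rw [Finsupp.linearCombination_apply, Finsupp.sum_fintype _ _ (by intro i; simp),
      Fin.sum_univ_two] at hf
    have e0 : ∏ r ∈ S 0, (X 0 - C r : Q) = uu c := by
      change ∏ r ∈ Finset.univ.image c, (X 0 - C r : Q) = uu c
      rw [Finset.prod_image (fun i _ j _ hij => hc hij)]
      rfl
    have e1 : ∏ r ∈ S 1, (X 1 - C r : Q) = vv d := by
      change ∏ r ∈ Finset.univ.image d, (X 1 - C r : Q) = vv d
      rw [Finset.prod_image (fun i _ j _ hij => hd hij)]
      rfl
    rw [e0, e1] at hf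
    rw [hf, Ideal.mem_span_pair]
    exact ⟨h 0, h 1, rfl⟩

theorem one_mem {c d : Fin m → ℂ} (hc : Function.Injective c) (hd : Function.Injective d)
    (δ : Q) (hδ : ∀ i j, evp (c i) (d j) δ ≠ 0) : (1 : Q) ∈ Ideal.span {δ, uu c, vv d} := by
  let F : Polynomial ℂ := ∏ i, ∏ j, (Polynomial.X - Polynomial.C (evp (c i) (d j) δ))
  have hev : ∀ (a b : ℂ) (G : Polynomial ℂ),
      evp a b (Polynomial.aeval δ G) = G.eval (evp a b δ) := by
    intro a b G
    induction G using Polynomial.induction_on' with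
    | add p q hp hq => rw [map_add, map_add, hp, hq, Polynomial.eval_add]
    | monomial n r =>
      rw [Polynomial.aeval_monomial, map_mul, map_pow, Polynomial.eval_monomial]
      congr 1
      simp [evp]
  have h1 : Polynomial.aeval δ F ∈ Ideal.span {uu c, vv d} := by
    apply mem_of_vanish hc hd
    intro i j
    rw [hev, Polynomial.eval_prod]
    apply Finset.prod_eq_zero (Finset.mem_univ i)
    rw [Polynomial.eval_prod]
    apply Finset.prod_eq_zero (Finset.mem_univ j)
    simp
  have h2 : F.coeff 0 ≠ 0 := by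
    rw [Polynomial.coeff_zero_eq_eval_zero, Polynomial.eval_prod, Finset.prod_ne_zero_iff]
    intro i _
    rw [Polynomial.eval_prod, Finset.prod_ne_zero_iff]
    intro j _
    simpa using hδ i j
  have h3 : C (F.coeff 0) = Polynomial.aeval δ F - Polynomial.aeval δ F.divX * δ := by
    have h4 := congrArg (Polynomial.aeval δ) (Polynomial.divX_mul_X_add F)
    rw [map_add, map_mul, Polynomial.aeval_X, Polynomial.aeval_C] at h4
    rw [← h4, add_sub_cancel_left]
    rfl
  have h5 : C (F.coeff 0) ∈ Ideal.span {δ, uu c, vv d} := by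
    rw [h3]
    refine Ideal.sub_mem _ ?_ ?_
    · exact Ideal.span_mono (Set.subset_insert _ _) h1
    · exact Ideal.mul_mem_left _ _ (Ideal.subset_span (Set.mem_insert _ _))
  have h6 : (1 : Q) = C (F.coeff 0)⁻¹ * C (F.coeff 0) := by
    rw [← C_mul, inv_mul_cancel₀ h2, C_1]
  rw [h6]
  exact Ideal.mul_mem_left _ _ h5

/-- Substitution of `a` for the first variable. -/
private noncomputable def gridBase_phi (a : ℂ) : Q →ₐ[ℂ] Polynomial ℂ :=
  aeval ![Polynomial.C a, Polynomial.X]

private lemma gridBase_dvd (a : ℂ) (p : Q) (h : gridBase_phi a p = 0) : (X 0 - C a : Q) ∣ p := by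
  let I : Ideal Q := Ideal.span {(X 0 - C a : Q)}
  let ψ : Polynomial ℂ →ₐ[ℂ] Q ⧸ I := Polynomial.aeval (Ideal.Quotient.mk I (X 1))
  have h1 : ψ.comp (gridBase_phi a) = Ideal.Quotient.mkₐ ℂ I := by
    apply MvPolynomial.algHom_ext
    intro i
    fin_cases i
    · change ψ (gridBase_phi a (X 0)) = Ideal.Quotient.mk I (X 0)
      have h2 : gridBase_phi a (X 0) = Polynomial.C a := by simp [gridBase_phi]
      rw [h2, Polynomial.aeval_C]
      change Ideal.Quotient.mk I (C a) = Ideal.Quotient.mk I (X 0)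
      rw [Ideal.Quotient.eq]
      have h3 : (C a - X 0 : Q) = -(X 0 - C a) := by ring
      rw [h3]
      exact I.neg_mem (Ideal.mem_span_singleton_self _)
    · change ψ (gridBase_phi a (X 1)) = Ideal.Quotient.mk I (X 1)
      have h2 : gridBase_phi a (X 1) = Polynomial.X := by simp [gridBase_phi]
      rw [h2, Polynomial.aeval_X]
  have h2 : Ideal.Quotient.mk I p = 0 := by
    have h3 := congrArg (fun f => f p) h1
    change ψ (gridBase_phi a p) = Ideal.Quotient.mk I p at h3
    rw [← h3, h, map_zero]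
  rw [Ideal.Quotient.eq_zero_iff_mem] at h2
  exact Ideal.mem_span_singleton.1 h2

private lemma gridBase_vv (a : ℂ) (d : Fin m → ℂ) : gridBase_phi a (vv d) ≠ 0 := by
  rw [vv, map_prod, Finset.prod_ne_zero_iff]
  intro j _
  have h2 : gridBase_phi a (X 1 - C (d j)) = Polynomial.X - Polynomial.C (d j) := by
    simp [gridBase_phi]
  rw [h2]
  exact Polynomial.X_sub_C_ne_zero _

private lemma gridBase_step (a : ℂ) (d : Fin m → ℂ) (q : Q) (h : (X 0 - C a : Q) ∣ vv d * q) :
    (X 0 - C a : Q) ∣ q := by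
  apply gridBase_dvd
  obtain ⟨r, hr⟩ := h
  have h1 := congrArg (gridBase_phi a) hr
  have h2 : gridBase_phi a (X 0 - C a) = 0 := by simp [gridBase_phi]
  rw [map_mul, map_mul, h2, zero_mul] at h1
  exact (mul_eq_zero.1 h1).resolve_left (gridBase_vv a d)

theorem dvd_of_vv_mul (c d : Fin m → ℂ) (q : Q) (h : uu c ∣ vv d * q) : uu c ∣ q := by
  classical
  have key : ∀ (s : Finset (Fin m)) (q : Q), (∏ i ∈ s, (X 0 - C (c i) : Q)) ∣ vv d * q →
      (∏ i ∈ s, (X 0 - C (c i) : Q)) ∣ q := by
    intro s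
    induction s using Finset.induction_on with
    | empty => intro q _; simp
    | insert i s hi ih =>
      intro q hq
      rw [Finset.prod_insert hi] at hq ⊢
      obtain ⟨q', hq'⟩ := gridBase_step (c i) d q ((Dvd.intro _ rfl).trans hq)
      rw [hq'] at hq ⊢
      apply mul_dvd_mul_left
      apply ih
      have h1 : vv d * ((X 0 - C (c i)) * q') = (X 0 - C (c i)) * (vv d * q') := by ring
      rw [h1] at hq
      exact (mul_dvd_mul_iff_left (X_sub_C_ne 0 (c i))).1 hq
  exact key Finset.univ q h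

end Pool.Agent.H91.RT
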