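import Pool.Agent.H91.RT.Basic

/-!
# RT-1  Linear Noether normalisation (statement; complete proof below)

`P = MvPolynomial (Fin n) ℂ`, `mm n` = ideal of the variables, `I` homogeneous, `I ≠ ⊤`.

PROOF of `exists_linear_noether`. Call `q` good if there are linear forms `z : Fin q → P` and `k`
with `mm ^ k ≤ I ⊔ span (range z)`. `q = n` is good (`good_self`: `z = X`, `k = 1`). Take the least
good `q` (`Nat.find`) and its `z`, `k`. Claim: `aeval z g ∈ I → g = 0`. Suppose `g ≠ 0`,
`aeval z g ∈ I`. Some homogeneous component `g_e` of `g` is nonzero (`sum_homogeneousComponent`),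
and `aeval z g_e` is the homogeneous component of degree `e` of `aeval z g`, so it is in `I`
(`component_aeval` below: `aeval z (homogeneousComponent e g) = homogeneousComponent e (aeval z g)`:
write `g = ∑ g_i`, `aeval z g_i` is homogeneous of degree `i` by `IsHomogeneous.aeval`
[`(hφ : φ.IsHomogeneous m) (g) (hg : ∀ i, (g i).IsHomogeneous n) : (aeval g φ).IsHomogeneous (n * m)`
or the variant in Mathlib], and use `homogeneousComponent_of_mem`). If `e = 0` or `q = 0`:
`g_e = C c` with `c ≠ 0`, so `C c ∈ I`, `I = ⊤`, contradiction. If `e > 0`, `q = q' + 1`: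
`good_drop` says that `q'` is good, contradicting minimality.

PROOF of `good_drop`. `g ≠ 0`, so there is `a : Fin (q+1) → ℂ` with `eval a g ≠ 0`
(`MvPolynomial.funext`). `a ≠ 0` because `g` is homogeneous of degree `e > 0` (`eval 0 g =` constant
coefficient `= 0`). Choose `l` with `a l ≠ 0`. Put `z' i := z i - C (a i / a l) * z l` (all `i`);
`z' l = 0`. Let `J := I ⊔ span (range (fun i : Fin q => z' (l.succAbove i)))`; then all `z' i ∈ J`.
(1) `z l ^ e ∈ J`: modulo `J`, `z i ≡ C (a i / a l) * z l`, so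
`aeval z g ≡ aeval (fun i => C (a i / a l) * z l) g = (z l) ^ e * C (eval (a / a l) g)`, and
`eval (a/a l) g = (1/a l)^e * eval a g ≠ 0` (homogeneity). As `aeval z g ∈ I ≤ J`:
`z l ^ e ∈ J`. (Helper `aeval_smul`: for `g` homogeneous of degree `e`, and `b : ι → ℂ`, `w ∈ P`:
`aeval (fun i => C (b i) * w) g = C (eval b g) * w ^ e` : expand `g.as_sum`, each monomial `s` has
`∑ s i = e`. Do the comparison modulo `J` with `Ideal.Quotient.mk J`, a ring hom; `map_aeval`,
`eval₂_congr` or `MvPolynomial.aeval_def` & `eval₂_comp`; two algebra homs `P' → P ⧸ J` agree if they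
agree on the variables: `MvPolynomial.algHom_ext`.)
(2) `I ⊔ span (range z) ≤ J ⊔ span {z l}`. So `mm ^ k ≤ J ⊔ span {z l}` and
`mm ^ (k * (1 + e)) = (mm ^ k) ^ (1 + e) ≤ (J ⊔ span {z l}) ^ (1 + e) ≤ J ^ 1 ⊔ span {z l} ^ e ≤ J`
(`Ideal.sup_pow_add_le_pow_sup_pow`, `Ideal.span_singleton_pow`).
The new forms are homogeneous of degree 1 (`IsHomogeneous.sub`, `IsHomogeneous.C_mul`).
-/

open MvPolynomial

namespace Pool.Agent.H91.RT

variable {n : ℕ} {I : Ideal (MvPolynomial (Fin n) ℂ)}

/-- `q` linear forms suffice to generate an irrelevant ideal modulo `I`. -/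
def Good (I : Ideal (MvPolynomial (Fin n) ℂ)) (q : ℕ) : Prop :=
  ∃ z : Fin q → MvPolynomial (Fin n) ℂ, (∀ i, (z i).IsHomogeneous 1) ∧
    ∃ k, mm n ^ k ≤ I ⊔ Ideal.span (Set.range z)

lemma good_self (I : Ideal (MvPolynomial (Fin n) ℂ)) : Good I n :=
  ⟨X, fun i => isHomogeneous_X _ i, 1, by rw [pow_one]; exact le_sup_right⟩

lemma component_aeval {q : ℕ} {z : Fin q → MvPolynomial (Fin n) ℂ}
    (hz : ∀ i, (z i).IsHomogeneous 1) (g : MvPolynomial (Fin q) ℂ) (e : ℕ) :
    aeval z (homogeneousComponent e g) = homogeneousComponent e (aeval z g) := by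
  have h1 : ∀ i, (aeval z (homogeneousComponent i g)).IsHomogeneous i := by
    intro i
    have := (homogeneousComponent_isHomogeneous i g).aeval z hz
    simpa using this
  have h2 : ∀ i, homogeneousComponent e (aeval z (homogeneousComponent i g)) =
      if i = e then aeval z (homogeneousComponent e g) else 0 := by
    intro i
    rw [homogeneousComponent_of_mem (h1 i)]
    by_cases h : i = e
    · subst h
      simp
    · rw [if_neg (fun hc => h hc.symm), if_neg h]
  conv_rhs => rw [← sum_homogeneousComponent g, map_sum, map_sum]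
  rw [Finset.sum_congr rfl fun i _ => h2 i, Finset.sum_ite_eq']
  split_ifs with h
  · rfl
  · rw [Finset.mem_range, not_lt] at h
    rw [homogeneousComponent_eq_zero _ _ (by omega), map_zero]

lemma aeval_smul {q e : ℕ} {g : MvPolynomial (Fin q) ℂ} (hg : g.IsHomogeneous e) (b : Fin q → ℂ)
    (w : MvPolynomial (Fin n) ℂ) :
    aeval (fun i => C (b i) * w) g = C (eval b g) * w ^ e := by
  rw [aeval_def, eval₂_eq', eval_eq', map_sum, Finset.sum_mul]
  refine Finset.sum_congr rfl fun s hs => ?_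
  have h1 : e = ∑ i, s i := by
    rw [hg.degree_eq_sum_deg_support hs]
    exact Finset.sum_subset (Finset.subset_univ _) fun i _ hi => Finsupp.notMem_support_iff.1 hi
  rw [map_mul, map_prod, h1, ← Finset.prod_pow_eq_pow_sum, mul_assoc, ← Finset.prod_mul_distrib]
  congr 1
  refine Finset.prod_congr rfl fun i _ => ?_
  rw [mul_pow, map_pow]

lemma aeval_sub_mem {q : ℕ} {J : Ideal (MvPolynomial (Fin n) ℂ)}
    {x y : Fin q → MvPolynomial (Fin n) ℂ} (h : ∀ i, x i - y i ∈ J)
    (g : MvPolynomial (Fin q) ℂ) : aeval x g - aeval y g ∈ J := by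
  have h1 : (Ideal.Quotient.mkₐ ℂ J).comp (aeval x) = (Ideal.Quotient.mkₐ ℂ J).comp (aeval y) := by
    apply MvPolynomial.algHom_ext
    intro i
    simp only [AlgHom.comp_apply, aeval_X, Ideal.Quotient.mkₐ_eq_mk]
    exact Ideal.Quotient.eq.2 (h i)
  have h2 := congrArg (fun φ => φ g) h1
  simp only [AlgHom.comp_apply, Ideal.Quotient.mkₐ_eq_mk] at h2
  exact Ideal.Quotient.eq.1 h2

lemma good_drop {q : ℕ} {z : Fin (q + 1) → MvPolynomial (Fin n) ℂ}
    (hz : ∀ i, (z i).IsHomogeneous 1) {k : ℕ} (hk : mm n ^ k ≤ I ⊔ Ideal.span (Set.range z))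
    {g : MvPolynomial (Fin (q + 1)) ℂ} {e : ℕ} (hg : g.IsHomogeneous e) (hg0 : g ≠ 0) (he : 0 < e)
    (hgI : aeval z g ∈ I) : Good I q := by
  obtain ⟨a, ha⟩ : ∃ a : Fin (q + 1) → ℂ, eval a g ≠ 0 := by
    by_contra h
    push Not at h
    exact hg0 (MvPolynomial.funext fun x => by rw [h x, map_zero])
  obtain ⟨l, hl⟩ : ∃ l, a l ≠ 0 := by
    by_contra h
    push Not at h
    apply ha
    have h1 : a = 0 := funext h
    rw [h1, eval_zero, constantCoeff_eq]
    apply hg.coeff_eq_zero
    rw [map_zero]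
    omega
  set b : Fin (q + 1) → ℂ := fun i => a i / a l with hb
  have hbg : eval b g ≠ 0 := by
    intro h0
    have h1 := aeval_smul (n := n) hg b (C (a l))
    have h2 := aeval_smul (n := n) hg a 1
    have h3 : (fun i => C (b i) * C (a l) : Fin (q + 1) → MvPolynomial (Fin n) ℂ) =
        fun i => C (a i) * 1 := by
      funext i
      rw [← C_mul, mul_one, hb]
      congr 1
      field_simp
    rw [h3, h2, h0] at h1
    simp only [one_pow, mul_one, map_zero, zero_mul] at h1
    rw [← C_0, C_inj] at h1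
    exact ha h1
  set z' : Fin (q + 1) → MvPolynomial (Fin n) ℂ := fun i => z i - C (b i) * z l with hz'
  set J : Ideal (MvPolynomial (Fin n) ℂ) :=
    I ⊔ Ideal.span (Set.range (fun i : Fin q => z' (l.succAbove i))) with hJ
  have hzJ : ∀ i, z i - C (b i) * z l ∈ J := by
    intro i
    by_cases hi : i = l
    · have hbl : b l = 1 := by
        rw [hb]
        exact div_self hl
      rw [hi, hbl, C_1, one_mul, sub_self]
      exact J.zero_mem
    · obtain ⟨j, hj⟩ := Fin.exists_succAbove_eq hi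
      rw [← hj]
      exact Ideal.mem_sup_right (Ideal.subset_span ⟨j, rfl⟩)
  have h1 : z l ^ e ∈ J := by
    have e1 := aeval_sub_mem (J := J) (x := z) (y := fun i => C (b i) * z l) hzJ g
    have e2 : aeval z g ∈ J := Ideal.mem_sup_left hgI
    have e3 : aeval (fun i => C (b i) * z l) g ∈ J := by
      have := J.sub_mem e2 e1
      rwa [sub_sub_cancel] at this
    rw [aeval_smul hg b (z l)] at e3
    have e4 := J.mul_mem_left (C (eval b g)⁻¹) e3
    rwa [← mul_assoc, ← C_mul, inv_mul_cancel₀ hbg, C_1, one_mul] at e4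
  have h2 : I ⊔ Ideal.span (Set.range z) ≤ J ⊔ Ideal.span {z l} := by
    refine sup_le (le_sup_left.trans le_sup_left) (Ideal.span_le.2 ?_)
    rintro _ ⟨i, rfl⟩
    have e1 : z i = (z i - C (b i) * z l) + C (b i) * z l := by ring
    rw [e1]
    refine Ideal.add_mem _ (Ideal.mem_sup_left (hzJ i)) (Ideal.mem_sup_right ?_)
    exact Ideal.mul_mem_left _ _ (Ideal.mem_span_singleton_self _)
  refine ⟨fun i => z' (l.succAbove i), fun i => (hz _).sub ((hz _).C_mul _), k * (1 + e), ?_⟩
  calc mm n ^ (k * (1 + e)) = (mm n ^ k) ^ (1 + e) := pow_mul _ _ _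
    _ ≤ (J ⊔ Ideal.span {z l}) ^ (1 + e) := Ideal.pow_right_mono (hk.trans h2) _
    _ ≤ J ^ 1 ⊔ Ideal.span {z l} ^ e := Ideal.sup_pow_add_le_pow_sup_pow
    _ ≤ J := by
        rw [pow_one, Ideal.span_singleton_pow]
        refine sup_le le_rfl ((Ideal.span_singleton_le_iff_mem _).2 h1)

theorem exists_linear_noether (hI : IsHomog I) (hI' : I ≠ ⊤) :
    ∃ (q : ℕ) (z : Fin q → MvPolynomial (Fin n) ℂ), (∀ i, (z i).IsHomogeneous 1) ∧
      (∃ k, mm n ^ k ≤ I ⊔ Ideal.span (Set.range z)) ∧
      ∀ g : MvPolynomial (Fin q) ℂ, aeval z g ∈ I → g = 0 := by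
  classical
  have hex : ∃ q, Good I q := ⟨n, good_self I⟩
  obtain ⟨q, hq, hmin⟩ : ∃ q, Good I q ∧ ∀ q' < q, ¬ Good I q' :=
    ⟨Nat.find hex, Nat.find_spec hex, fun q' h => Nat.find_min hex h⟩
  obtain ⟨z, hz, k, hk⟩ := hq
  refine ⟨q, z, hz, ⟨k, hk⟩, fun g hgI => ?_⟩
  by_contra hg
  obtain ⟨e, he⟩ : ∃ e, homogeneousComponent e g ≠ 0 := by
    by_contra h
    push Not at h
    apply hg
    rw [← sum_homogeneousComponent g]
    exact Finset.sum_eq_zero fun i _ => h i
  have hcI : aeval z (homogeneousComponent e g) ∈ I := by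
    rw [component_aeval hz]
    exact hI _ hgI e
  have hhom := homogeneousComponent_isHomogeneous e g
  rcases Nat.eq_zero_or_pos e with h0 | h0
  · subst h0
    rw [homogeneousComponent_zero] at he hcI
    rw [aeval_C] at hcI
    have hc : coeff 0 g ≠ 0 := fun hc => he (by rw [hc, C_0])
    apply hI'
    apply Ideal.eq_top_of_isUnit_mem _ hcI
    exact (isUnit_iff_ne_zero.2 hc).map _
  · cases q with
    | zero =>
      obtain ⟨s, hs⟩ := MvPolynomial.ne_zero_iff.1 he
      have h1 := hhom hs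
      have h2 : s = 0 := Subsingleton.elim _ _
      rw [h2] at h1
      simp at h1
      omega
    | succ q' =>
      exact hmin q' (by omega) (good_drop hz hk hhom he h0 hcI)

end Pool.Agent.H91.RT
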